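import Pool.Agent.Lib_helper40.UP.Prime

/-!
# The unit equation on small groups: the three fibres
-/

set_option autoImplicit false
set_option linter.unusedSectionVars false

open scoped TensorProduct

namespace Pool.Agent.SG

open WeierstrassCurve.Affine WithZero Polynomial
open MK4 (FT lg HK Closed hk sy Cst)
open Pool.Agent.TN (lgmul lgdiv lgpow lgneg lg1 lgz V0 lg_mem_V0 lgzpow lginv)
open Pool.Agent.UEG
open Pool.Agent.GK
open Pool.Agent.UP

section

variable {k : Type*} [Field k] [DecidableEq k] [CharZero k] {W : WeierstrassCurve.Affine k}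
  {F : Type*} [Field F] [DecidableEq F] [Algebra k F] {X Y : F}
  {H : AddSubgroup W.Point} [Fintype H] [DecidableEq H] {hg : Gen W X Y}

/-- the divisors of `f` and `1 - f` -/
structure Pair (hg : Gen W X Y) (f : F) (m n : H → ℤ) : Prop where
  uf : IsUn H X Y f
  ug : IsUn H X Y (1 - f)
  ex : ∃ (κ κ' : FT F) (w : W.FunctionField), PU H lc2 hg f m κ w ∧
    PU H lc2 hg (1 - f) n κ' (1 - w)

lemma exists_pair (hg : Gen W X Y) {f : F} (hf : IsUn H X Y f) (hf' : IsUn H X Y (1 - f)) :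
    ∃ m n : H → ℤ, Pair hg f m n := by
  obtain ⟨m, κ, w, h⟩ := exists_PU lc_ok hg hf
  obtain ⟨n, κ', w', h'⟩ := exists_PU lc_ok hg hf'
  have e : w' = 1 - w := by
    apply io_inj hg
    rw [h'.io, map_sub, map_one, h.io]
  subst e
  exact ⟨m, n, hf, hf', κ, κ', w, h, h'⟩

lemma Pair.tri {f : F} {m n : H → ℤ} (h : Pair hg f m n) (x : H) :
    (0 < m x ∧ n x = 0) ∨ (m x < 0 ∧ n x = m x) ∨ (m x = 0 ∧ 0 ≤ n x) := by
  obtain ⟨κ, κ', w, h1, h2⟩ := h.ex
  exact (val_one lc_ok hg h.uf h.ug h1 h2 x).1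

lemma Pair.const {f : F} {m n : H → ℤ} (h : Pair hg f m n) (hm : m = 0) :
    ∃ c : k, f = algebraMap k F c := by
  obtain ⟨κ, κ', w, h1, h2⟩ := h.ex
  obtain ⟨c, -, e⟩ := const_of_unit lc_ok ac_ok hg h.uf (by
    rw [h1.lg, hm]
    simp only [Pi.zero_apply, Int.cast_zero, zero_smul, Finset.sum_const_zero, add_zero]
    exact h1.κV)
  exact ⟨c, e⟩

lemma Pair.m0 {f : F} {m n : H → ℤ} (h : Pair hg f m n) : ∑ a, m a = 0 := by
  obtain ⟨κ, κ', w, h1, h2⟩ := h.ex
  exact h1.s0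

lemma Pair.n0 {f : F} {m n : H → ℤ} (h : Pair hg f m n) : ∑ a, n a = 0 := by
  obtain ⟨κ, κ', w, h1, h2⟩ := h.ex
  exact h2.s0

lemma Pair.m1 {f : F} {m n : H → ℤ} (h : Pair hg f m n) : ∑ a, m a • a = 0 := by
  obtain ⟨κ, κ', w, h1, h2⟩ := h.ex
  exact h1.s1

lemma Pair.n1 {f : F} {m n : H → ℤ} (h : Pair hg f m n) : ∑ a, n a • a = 0 := by
  obtain ⟨κ, κ', w, h1, h2⟩ := h.ex
  exact h2.s1

/-- `1 - f` -/
lemma Pair.compl {f : F} {m n : H → ℤ} (h : Pair hg f m n) : Pair hg (1 - f) n m := by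
  obtain ⟨κ, κ', w, h1, h2⟩ := h.ex
  refine ⟨h.ug, by rw [sub_sub_cancel]; exact h.uf, κ', κ, 1 - w, h2, ?_⟩
  rw [sub_sub_cancel, sub_sub_cancel]
  exact h1

/-- `1 / f` -/
lemma Pair.inv {f : F} {m n : H → ℤ} (h : Pair hg f m n) :
    Pair hg f⁻¹ (fun x => -m x) (fun x => n x - m x) := by
  obtain ⟨κ, κ', w, h1, h2⟩ := h.ex
  have hf0 := h.uf.1
  have hg1 := h.ug.1
  have e : 1 - f⁻¹ = algebraMap k F (-1) * ((1 - f) * f⁻¹) := by
    rw [map_neg, map_one]
    field_simp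
    ring
  have hw : w ≠ 0 := h1.ne
  have e' : (1 : W.FunctionField) - w⁻¹ = cK (-1) * ((1 - w) * w⁻¹) := by
    rw [map_neg, map_one]
    field_simp
    ring
  have h3 := (PU.const lc_ok hg (H := H) (c := (-1 : k)) (by norm_num)).mul lc_ok
    (h2.mul lc_ok (h1.inv lc_ok))
  rw [← e, ← e'] at h3
  have e3 : (0 + (n + -m) : H → ℤ) = fun x => n x - m x := by
    funext x
    simp only [Pi.add_apply, Pi.neg_apply, Pi.zero_apply]
    ring
  rw [e3] at h3
  have h4 : IsUn H X Y (1 - f⁻¹) := by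
    rw [← h3.io]
    exact h3.un hg
  refine ⟨IsUn.inv hg h.uf, h4, -κ, _, w⁻¹, h1.inv lc_ok, h3⟩

/-- zeros, poles and ones -/
lemma Pair.three {f : F} {m n : H → ℤ} (h : Pair hg f m n)
    (hc : ¬ ∃ c : k, f = algebraMap k F c) :
    ∃ a b c : H, 0 < m a ∧ m b < 0 ∧ 0 < n c := by
  have hm : m ≠ 0 := fun e => hc (h.const e)
  have hm0 := h.m0
  have hn0 := h.n0
  obtain ⟨a, ha⟩ : ∃ a, 0 < m a := by
    by_contra h0
    push Not at h0
    apply hm
    funext x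
    exact (Finset.sum_eq_zero_iff_of_nonpos fun x _ => h0 x).mp hm0 x (Finset.mem_univ _)
  obtain ⟨b, hb⟩ : ∃ b, m b < 0 := by
    by_contra h0
    push Not at h0
    have := (Finset.sum_eq_zero_iff_of_nonneg fun x _ => h0 x).mp hm0 a (Finset.mem_univ _)
    omega
  obtain ⟨c, hc⟩ : ∃ c, 0 < n c := by
    by_contra h0
    push Not at h0
    have h1 := (Finset.sum_eq_zero_iff_of_nonpos fun x _ => h0 x).mp hn0 b (Finset.mem_univ _)
    rcases h.tri b with h2 | h2 | h2 <;> omega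
  exact ⟨a, b, c, ha, hb, hc⟩

/-- at most two points: only constants -/
theorem two_points (hH : Fintype.card H ≤ 2) (hg : Gen W X Y) {f : F} (hf : IsUn H X Y f)
    (hf' : IsUn H X Y (1 - f)) : ∃ c : k, f = algebraMap k F c := by
  by_contra hc
  obtain ⟨m, n, h⟩ := exists_pair hg hf hf'
  obtain ⟨a, b, c, ha, hb, hc⟩ := h.three hc
  have hab : a ≠ b := by rintro rfl; omega
  have hac : a ≠ c := by rintro rfl; rcases h.tri a with h2 | h2 | h2 <;> omega
  have hbc : b ≠ c := by rintro rfl; rcases h.tri b with h2 | h2 | h2 <;> omega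
  have : ({a, b, c} : Finset H).card = 3 := Finset.card_eq_three.mpr ⟨a, b, c, hab, hac, hbc, rfl⟩
  have h3 := Finset.card_le_univ ({a, b, c} : Finset H)
  omega

end

end Pool.Agent.SG
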