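import Pool.Agent.Lib_helper87.SG.A
import Pool.Agent.Lib_helper24.FAM.Gen

/-!
# The unit equation on small groups: order three
-/

set_option autoImplicit false
set_option linter.unusedSectionVars false

open scoped TensorProduct

namespace Pool.Agent.SG

open WeierstrassCurve.Affine WithZero Polynomial
open MK4 (FT lg HK Closed hk sy Cst)
open Pool.Agent.TN (lgmul lgdiv lgpow lgneg lg1 lgz V0 lg_mem_V0 lgzpow lginv Orb)
open Pool.Agent.UEG
open Pool.Agent.GK
open Pool.Agent.UP
open FK4 (Lin LineQ Supp supp_iff UnitEq Generic unitEq_of lin_const lin_X lin_Y supp_one)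

section

variable {k : Type*} [Field k] [DecidableEq k] [CharZero k] {W : WeierstrassCurve.Affine k}
  {F : Type*} [Field F] [DecidableEq F] [Algebra k F] {X Y : F}
  {H : AddSubgroup W.Point} [Fintype H] [DecidableEq H] {hg : Gen W X Y}

/-- two functions with the same divisor -/
lemma eq_smul {f f' : F} {m : H → ℤ} {κ κ' : FT F} {w w' : W.FunctionField}
    (h : PU H lc2 hg f m κ w) (h' : PU H lc2 hg f' m κ' w') :
    ∃ c : k, c ≠ 0 ∧ f = algebraMap k F c * f' := by
  have hf : IsUn H X Y f := by rw [← h.io]; exact h.un hg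
  have hf' : IsUn H X Y f' := by rw [← h'.io]; exact h'.un hg
  have h3 := h.mul lc_ok (h'.inv lc_ok)
  obtain ⟨c, hc, e⟩ := const_of_unit lc_ok ac_ok hg (f := f * f'⁻¹)
    (IsUn.mul hg hf (IsUn.inv hg hf')) (by
      rw [h3.lg]
      have : ∀ a, (((m + -m) a : ℤ) : ℚ) • gg (pp F H) (gp hg - pp F H a) = 0 := by
        intro a
        simp
      rw [Finset.sum_congr rfl fun a _ => this a, Finset.sum_const_zero, add_zero]
      exact h3.κV)
  refine ⟨c, hc, ?_⟩
  rw [← e, mul_assoc, inv_mul_cancel₀ hf'.1, mul_one]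

/-- a function with a triple pole at the origin and a triple zero at a point of order three -/
lemma flex {t : H} (h3 : t + t = -t) (ht : t ≠ 0) {f : F} {m : H → ℤ} {κ : FT F}
    {w : W.FunctionField} (h : PU H lc2 hg f m κ w)
    (hm : ∀ x, m x = (if x = t then 3 else 0) - (if x = 0 then 3 else 0)) :
    ∃ (x0 y0 : k) (h0 : W.Nonsingular x0 y0) (c : k), (t : W.Point) = .some x0 y0 h0 ∧ c ≠ 0 ∧
      y0 ≠ W.negY x0 y0 ∧
      f = algebraMap k F c * (Y - (algebraMap k F (W.slope x0 x0 y0 y0) *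
        (X - algebraMap k F x0) + algebraMap k F y0)) := by
  have ht' : t ≠ -t := fun e => ht (add_eq_left.mp (h3.trans e.symm))
  obtain ⟨t, htH⟩ := t
  rcases t with _ | ⟨x0, y0, g0⟩
  · exact absurd rfl ht
  have hne : ¬(x0 = x0 ∧ y0 = W.negY x0 y0) := by
    rintro ⟨-, e⟩
    apply ht'
    apply Subtype.ext
    show Point.some x0 y0 g0 = -Point.some x0 y0 g0
    rw [Point.neg_some]
    simp only [Point.some.injEq, true_and]
    exact e
  have hL := PU.line lc_ok hg g0 g0 htH htH hne
  have e1 : m = mL ⟨_, htH⟩ ⟨_, htH⟩ := by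
    funext x
    rw [hm]
    unfold mL
    rw [h3, neg_neg]
    split_ifs <;> norm_num
  rw [e1] at h
  obtain ⟨c, hc, e2⟩ := eq_smul h hL
  refine ⟨x0, y0, g0, c, rfl, hc, fun e => hne ⟨rfl, e⟩, ?_⟩
  rw [e2, io_line]

/-- the abscissa of the double of a flex -/
lemma flex_x {x0 y0 : k} {h0 : W.Nonsingular x0 y0} {t : H} (ht : (t : W.Point) = .some x0 y0 h0)
    (h3 : t + t = -t) (hne : y0 ≠ W.negY x0 y0) :
    W.slope x0 x0 y0 y0 ^ 2 + W.a₁ * W.slope x0 x0 y0 y0 - W.a₂ - x0 - x0 = x0 := by
  have e1 := congrArg (Subtype.val) h3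
  rw [AddSubgroup.coe_add, AddSubgroup.coe_neg, ht, Point.neg_some,
    Point.add_some (fun h => hne h.2)] at e1
  simp only [Point.some.injEq] at e1
  exact e1.1

/-- the slope at the negative -/
lemma slope_neg {x0 y0 : k} (hne : y0 ≠ W.negY x0 y0) :
    W.slope x0 x0 (W.negY x0 y0) (W.negY x0 y0) = -W.slope x0 x0 y0 y0 - W.a₁ := by
  have h1 : y0 - W.negY x0 y0 ≠ 0 := sub_ne_zero.mpr hne
  have hne' : W.negY x0 y0 ≠ W.negY x0 (W.negY x0 y0) := by
    rw [negY_negY]; exact fun e => hne e.symm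
  have h2 : W.negY x0 y0 - W.negY x0 (W.negY x0 y0) ≠ 0 := sub_ne_zero.mpr hne'
  rw [slope_of_Y_ne rfl hne', slope_of_Y_ne rfl hne, negY_negY]
  rw [negY_negY] at h2
  field_simp
  unfold negY
  ring

/-- a function with poles at the origin only, on a group of order three: the divisors -/
theorem core3a (hH : Fintype.card H = 3) {f : F} {m n : H → ℤ} (h : Pair hg f m n) {a c : H}
    (ha : 0 < m a) (hc : 0 < n c) (h0 : m 0 < 0) : a ≠ c ∧ a ≠ 0 ∧ c ≠ 0 ∧
      (∀ x : H, x = a ∨ x = c ∨ x = 0) ∧ (∀ x : H, x + x = -x) ∧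
      (∀ x, m x = (if x = a then 3 else 0) - (if x = 0 then 3 else 0)) ∧
      ∀ x, n x = (if x = c then 3 else 0) - (if x = 0 then 3 else 0) := by
  have hac : a ≠ c := by rintro rfl; rcases h.tri a with h2 | h2 | h2 <;> omega
  have ha0 : a ≠ 0 := by rintro rfl; omega
  have hc0 : c ≠ 0 := by rintro rfl; rcases h.tri 0 with h2 | h2 | h2 <;> omega
  have huniv : (Finset.univ : Finset H) = {a, c, 0} := by
    symm
    apply Finset.eq_univ_of_card
    rw [hH]
    exact Finset.card_eq_three.mpr ⟨a, c, 0, hac, ha0, hc0, rfl⟩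
  have hcase : ∀ x : H, x = a ∨ x = c ∨ x = 0 := by
    intro x
    have := Finset.mem_univ x
    rw [huniv] at this
    simpa using this
  have h3 : ∀ x : H, x + x = -x := by
    intro x
    have := card_nsmul_eq_zero (x := x)
    rw [← Nat.card_eq_fintype_card, Nat.card_eq_fintype_card, hH] at this
    have e : x + x + x = 0 := by rw [← this]; abel
    exact eq_neg_of_add_eq_zero_left e
  have hmc : m c = 0 := by rcases h.tri c with h2 | h2 | h2 <;> omega
  have hna : n a = 0 := by rcases h.tri a with h2 | h2 | h2 <;> omega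
  have hn0 : n 0 = m 0 := by rcases h.tri 0 with h2 | h2 | h2 <;> omega
  have hsum : ∀ g : H → ℤ, ∑ x, g x = g a + (g c + g 0) := by
    intro g
    rw [huniv, Finset.sum_insert (by simp [hac, ha0]), Finset.sum_insert (by simp [hc0]),
      Finset.sum_singleton]
  have s1 := h.m0
  have s2 := h.n0
  rw [hsum] at s1 s2
  obtain ⟨N, hN⟩ := Int.eq_ofNat_of_zero_le ha.le
  have hm : ∀ x, m x = (if x = a then (N : ℤ) else 0) - (if x = 0 then (N : ℤ) else 0) := by
    intro x
    rcases hcase x with rfl | rfl | rfl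
    · rw [if_pos rfl, if_neg ha0]; omega
    · rw [if_neg hac.symm, if_neg hc0]; omega
    · rw [if_neg ha0.symm, if_pos rfl]; omega
  have hn : ∀ x, n x = (if x = c then (N : ℤ) else 0) - (if x = 0 then (N : ℤ) else 0) := by
    intro x
    rcases hcase x with rfl | rfl | rfl
    · rw [if_neg hac, if_neg ha0]; omega
    · rw [if_pos rfl, if_neg hc0]; omega
    · rw [if_neg hc0.symm, if_pos rfl]; omega
  obtain ⟨κ, κ', w, h1, h2⟩ := h.ex
  -- the degree
  have hN4 : N < 4 := by
    by_contra h4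
    exact case_one lc_ok ac_ok pl_ok h1 h2 ha0 hc0 (not_lt.mp h4) hm hn
  have hs1 : (N : ℤ) • a = 0 := by
    have b1 := h.m1
    have b2 : ∀ x : H, m x • x = (if x = a then (N : ℤ) • x else 0) -
        (if x = 0 then (N : ℤ) • x else 0) := by
      intro x
      rw [hm]
      split_ifs <;> simp only [zero_smul, sub_zero, zero_sub, neg_smul, sub_self]
    rw [Finset.sum_congr rfl fun x _ => b2 x, Finset.sum_sub_distrib, Finset.sum_ite_eq',
      Finset.sum_ite_eq', if_pos (Finset.mem_univ _), if_pos (Finset.mem_univ _), smul_zero,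
      sub_zero] at b1
    exact b1
  have hN3 : N = 3 := by
    have b1 : addOrderOf a ∣ N := by
      apply addOrderOf_dvd_of_nsmul_eq_zero
      rw [← natCast_zsmul]; exact hs1
    have b2 : addOrderOf a ∣ Fintype.card H := addOrderOf_dvd_card
    rw [hH] at b2
    rcases (Nat.dvd_prime Nat.prime_three).mp b2 with b4 | b4
    · exact absurd (AddMonoid.addOrderOf_eq_one_iff.mp b4) ha0
    · rw [b4] at b1
      have b5 : 0 < N := by omega
      have := Nat.le_of_dvd b5 b1
      omega
  subst hN3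
  exact ⟨hac, ha0, hc0, hcase, h3, fun x => by rw [hm]; push_cast; rfl,
    fun x => by rw [hn]; push_cast; rfl⟩

/-- a function with poles at the origin only, on a group of order three -/
theorem core3 (hH : Fintype.card H = 3) {f : F} {m n : H → ℤ} (h : Pair hg f m n) {a c : H}
    (ha : 0 < m a) (hc : 0 < n c) (h0 : m 0 < 0) : LineQ H X Y f ∧ W.c₄ = 0 := by
  obtain ⟨hac, ha0, hc0, hcase, h3, hm, hn⟩ := core3a hH h ha hc h0
  obtain ⟨κ, κ', w, h1, h2⟩ := h.ex
  -- the two functions
  obtain ⟨x0, y0, g0, c0, e0, hc0', hne, ef⟩ := flex (h3 a) ha0 h1 hm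
  obtain ⟨x1, y1, g1, c1, e1, hc1', hne', eg⟩ := flex (h3 c) hc0 h2 hn
  have hca : c = -a := by
    rcases hcase (-a) with h4 | h4 | h4
    · exact absurd (by rw [h3, h4] : a + a = a) (fun e => ha0 (add_eq_left.mp e))
    · exact h4.symm
    · exact absurd (neg_eq_zero.mp h4) ha0
  have e1' : x1 = x0 ∧ y1 = W.negY x0 y0 := by
    have := e1
    rw [hca, AddSubgroup.coe_neg, e0, Point.neg_some] at this
    simp only [Point.some.injEq] at this
    exact ⟨this.1.symm, this.2.symm⟩
  rw [e1'.1, e1'.2] at eg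
  constructor
  · refine ⟨f, 1, ?_, ?_, supp_iff.mpr h.uf, supp_one, supp_iff.mpr h.ug, by rw [div_one]⟩
    · rw [ef]
      exact (lin_Y.sub (((lin_X.sub (lin_const _)).smul _).add (lin_const _))).smul _
    · rw [← map_one (algebraMap k F)]; exact lin_const 1
  · rw [slope_neg hne] at eg
    set s := W.slope x0 x0 y0 y0 with hs
    have hx := flex_x e0 (h3 a) hne
    rw [← hs] at hx
    have h5 : algebraMap k F c0 * (Y - (algebraMap k F s * (X - algebraMap k F x0) +
        algebraMap k F y0)) + algebraMap k F c1 * (Y - (algebraMap k F (-s - W.a₁) *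
          (X - algebraMap k F x0) + algebraMap k F (W.negY x0 y0))) = 1 := by
      rw [← ef, ← eg]; ring
    have h6 := hg.ind (p := C (c0 * (s * x0 - y0) + c1 * ((-s - W.a₁) * x0 - W.negY x0 y0) - 1) +
      C (-(c0 * s) - c1 * (-s - W.a₁)) * Polynomial.X) (q := C (c0 + c1)) (by
        simp only [eval₂_add, eval₂_mul, eval₂_C, eval₂_X]
        simp only [map_add, map_mul, map_sub, map_neg, map_one] at h5 ⊢
        linear_combination h5)
    obtain ⟨h7, h8⟩ := h6
    have h9 : c0 + c1 = 0 := C_eq_zero.mp h8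
    have h10 : -(c0 * s) - c1 * (-s - W.a₁) = 0 := by
      have := congrArg (fun p => p.coeff 1) h7
      simpa [Polynomial.coeff_one] using this
    have h11 : 2 * s = -W.a₁ := by
      have : c0 * (2 * s + W.a₁) = 0 := by
        linear_combination -h10 + (-s - W.a₁) * (-1) * h9
      rcases mul_eq_zero.mp this with h | h
      · exact absurd h hc0'
      · linear_combination h
    have h12 : s * (y0 - W.negY x0 y0) = 3 * x0 ^ 2 + 2 * W.a₂ * x0 + W.a₄ - W.a₁ * y0 := by
      rw [hs, slope_of_Y_ne rfl hne]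
      have : y0 - W.negY x0 y0 ≠ 0 := sub_ne_zero.mpr hne
      field_simp
    unfold negY at h12
    have hs' : s = -W.a₁ / 2 := by linear_combination h11 / 2
    rw [hs'] at h12 hx
    have f1 : 12 * x0 = -(W.a₁ ^ 2 + 4 * W.a₂) := by linear_combination (-4) * hx
    have f2 : 12 * x0 ^ 2 = 2 * (2 * W.a₄ + W.a₁ * W.a₃) := by
      linear_combination 4 * h12 + 2 * x0 * f1
    unfold WeierstrassCurve.c₄ WeierstrassCurve.b₂ WeierstrassCurve.b₄
    have f3 : (W.a₁ ^ 2 + 4 * W.a₂) ^ 2 = 144 * x0 ^ 2 := by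
      linear_combination (-12 * x0 + (W.a₁ ^ 2 + 4 * W.a₂)) * f1
    linear_combination f3 + 12 * f2

/-- **the unit equation on a group of order three** -/
theorem three_points (hH : Fintype.card H = 3) (hg : Gen W X Y) {f : F} (hf : IsUn H X Y f)
    (hf' : IsUn H X Y (1 - f)) :
    (∃ c : k, f = algebraMap k F c) ∨ (LineQ H X Y f ∧ W.c₄ = 0) := by
  by_cases hc : ∃ c : k, f = algebraMap k F c
  · exact Or.inl hc
  right
  obtain ⟨m, n, h⟩ := exists_pair hg hf hf'
  obtain ⟨a, b, c, ha, hb, hc'⟩ := h.three hc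
  have hab : a ≠ b := by rintro rfl; omega
  have hac : a ≠ c := by rintro rfl; rcases h.tri a with h2 | h2 | h2 <;> omega
  have hbc : b ≠ c := by rintro rfl; rcases h.tri b with h2 | h2 | h2 <;> omega
  have huniv : (Finset.univ : Finset H) = {a, b, c} := by
    symm
    apply Finset.eq_univ_of_card
    rw [hH]
    exact Finset.card_eq_three.mpr ⟨a, b, c, hab, hac, hbc, rfl⟩
  have h0 : (0 : H) ∈ ({a, b, c} : Finset H) := by rw [← huniv]; exact Finset.mem_univ _
  simp only [Finset.mem_insert, Finset.mem_singleton] at h0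
  have hf0 := hf.1
  have hg0 := hf'.1
  have hna : n a = 0 := by rcases h.tri a with h2 | h2 | h2 <;> omega
  have hnb : n b = m b := by rcases h.tri b with h2 | h2 | h2 <;> omega
  have hmc : m c = 0 := by rcases h.tri c with h2 | h2 | h2 <;> omega
  rcases h0 with h0 | h0 | h0
  · -- `1 / f` has the pole at the origin
    have h4 := core3 hH h.inv (a := b) (c := c) (by omega) (by omega)
      (by rw [h0]; omega)
    refine ⟨h4.1.orb (u := f⁻¹) ?_, h4.2⟩
    right; right; left
    rw [one_div, inv_inv]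
  · rw [← h0] at hb
    exact core3 hH h ha hc' hb
  · -- `1 / (1 - f)` has the pole at the origin
    have h4 := core3 hH h.compl.inv (a := b) (c := a) (by omega) (by omega)
      (by rw [h0]; omega)
    refine ⟨h4.1.orb (u := (1 - f)⁻¹) ?_, h4.2⟩
    right; right; right; left
    rw [one_div, inv_inv, sub_sub_cancel]

end

end Pool.Agent.SG
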