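import Pool.Agent.Lib_helper87.SG.B
import Pool.Agent.Lib_helper76.FAM.Thr

/-!
# The unit equation on small groups: the points of order two
-/

set_option autoImplicit false
set_option linter.unusedSectionVars false
set_option linter.unusedSimpArgs false

open scoped TensorProduct

namespace Pool.Agent.SG

open WeierstrassCurve.Affine WithZero Polynomial
open MK4 (FT lg HK Closed hk sy Cst)
open Pool.Agent.TN (lgmul lgdiv lgpow lgneg lg1 lgz V0 lg_mem_V0 lgzpow lginv Orb)
open Pool.Agent.UEG
open Pool.Agent.GK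
open Pool.Agent.UP
open FK4 (Lin LineQ Supp supp_iff UnitEq Generic unitEq_of lin_const lin_X lin_Y supp_one LineS Thr
  S3 supp_const)

/-! ### the algebra -/

section alg

variable {k : Type*} [Field k] [CharZero k]

lemma alg_A {α ξ η c c' : k} {i j d : ℕ} (hc : c ≠ 0) (hξ : ξ ≠ α) (hη : η ≠ α) (hξη : ξ ≠ η)
    (hd : 0 < d) (hij : i + j = d)
    (h : (1 : k[X]) - C c * (X - C α) ^ d = C c' * ((X - C ξ) ^ i * (X - C η) ^ j)) :
    d = 1 ∨ (d = 2 ∧ i = 1 ∧ j = 1 ∧ c * (ξ - α) ^ 2 = 1 ∧ ξ + η = 2 * α) := by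
  have hD := congrArg derivative h
  simp only [derivative_sub, derivative_mul, derivative_C, derivative_one, derivative_pow,
    derivative_X, zero_mul, zero_add, sub_zero, mul_one, zero_sub, add_zero] at hD
  have hi : i ≤ 1 := by
    by_contra hi
    push Not at hi
    have h1 := congrArg (eval ξ) hD
    obtain ⟨i', rfl⟩ : ∃ i', i = i' + 2 := ⟨i - 2, by omega⟩
    simp only [eval_neg, eval_mul, eval_C, eval_pow, eval_sub, eval_X, eval_add, sub_self,
      Nat.add_sub_cancel, eval_natCast] at h1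
    have h2 : (i' + 2 - 1) = i' + 1 := by omega
    rw [h2, pow_succ, pow_succ, mul_zero, mul_zero, mul_zero, zero_mul, zero_mul, add_zero,
      mul_zero, neg_eq_zero] at h1
    have h3 : (ξ - α) ^ (d - 1) ≠ 0 := pow_ne_zero _ (sub_ne_zero.mpr hξ)
    have h4 : (d : k) ≠ 0 := by exact_mod_cast hd.ne'
    exact mul_ne_zero hc (mul_ne_zero h4 h3) h1
  have hj : j ≤ 1 := by
    by_contra hj
    push Not at hj
    have h1 := congrArg (eval η) hD
    obtain ⟨j', rfl⟩ : ∃ j', j = j' + 2 := ⟨j - 2, by omega⟩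
    simp only [eval_neg, eval_mul, eval_C, eval_pow, eval_sub, eval_X, eval_add, sub_self,
      Nat.add_sub_cancel, eval_natCast] at h1
    have h2 : (j' + 2 - 1) = j' + 1 := by omega
    simp only [h2, pow_succ, mul_zero, zero_mul, add_zero, neg_eq_zero] at h1
    have h3 : (η - α) ^ (d - 1) ≠ 0 := pow_ne_zero _ (sub_ne_zero.mpr hη)
    have h4 : (d : k) ≠ 0 := by exact_mod_cast hd.ne'
    exact mul_ne_zero hc (mul_ne_zero h4 h3) h1
  rcases Nat.lt_or_ge d 2 with h2 | h2
  · left; omega
  right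
  have hi1 : i = 1 := by omega
  have hj1 : j = 1 := by omega
  have hd2 : d = 2 := by omega
  subst hi1 hj1 hd2
  have e1 := congrArg (eval ξ) h
  have e2 := congrArg (eval η) h
  simp only [eval_sub, eval_one, eval_mul, eval_C, eval_pow, eval_X, sub_self, pow_one, zero_mul,
    mul_zero] at e1 e2
  have e3 : c * (ξ - α) ^ 2 = 1 := by linear_combination -e1
  refine ⟨rfl, rfl, rfl, e3, ?_⟩
  have e4 : c * ((ξ - η) * (ξ + η - 2 * α)) = 0 := by linear_combination e2 - e1
  rcases mul_eq_zero.mp e4 with h0 | h0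
  · exact absurd h0 hc
  rcases mul_eq_zero.mp h0 with h0 | h0
  · exact absurd (sub_eq_zero.mp h0) hξη
  · linear_combination h0

lemma alg_B {α β ξ c c' : k} {i d : ℕ} (hc : c ≠ 0) (hξ : ξ ≠ α) (hαβ : α ≠ β)
    (hd : 0 < d)
    (h : (X - C β) ^ d - C c * (X - C α) ^ d = C c' * (X - C ξ) ^ i) :
    d = 1 ∨ (d = 2 ∧ i = 1 ∧ c = 1 ∧ α + β = 2 * ξ) := by
  have hD := congrArg derivative h
  simp only [derivative_sub, derivative_mul, derivative_C, derivative_pow,
    derivative_X, zero_mul, zero_add, sub_zero, mul_one] at hD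
  have hi : i ≤ 1 := by
    by_contra hi
    push Not at hi
    have h1 := congrArg (eval ξ) hD
    have h0 := congrArg (eval ξ) h
    obtain ⟨i', rfl⟩ : ∃ i', i = i' + 2 := ⟨i - 2, by omega⟩
    obtain ⟨d', rfl⟩ : ∃ d', d = d' + 1 := ⟨d - 1, by omega⟩
    simp only [eval_neg, eval_mul, eval_C, eval_pow, eval_sub, eval_X, eval_add, sub_self,
      Nat.add_sub_cancel, eval_natCast] at h1 h0
    have h2 : (i' + 2 - 1) = i' + 1 := by omega
    rw [h2, pow_succ (0 : k), mul_zero, mul_zero, mul_zero] at h1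
    rw [pow_succ (0 : k), mul_zero, mul_zero] at h0
    have h3 : (ξ - α) ^ d' ≠ 0 := pow_ne_zero _ (sub_ne_zero.mpr hξ)
    have h4 : ((d' + 1 : ℕ) : k) ≠ 0 := by exact_mod_cast Nat.succ_ne_zero d'
    have h5 : (ξ - β) ^ d' = c * (ξ - α) ^ d' := by
      have : ((d' + 1 : ℕ) : k) * ((ξ - β) ^ d' - c * (ξ - α) ^ d') = 0 := by
        linear_combination h1
      rcases mul_eq_zero.mp this with h6 | h6
      · exact absurd h6 h4
      · linear_combination h6
    have h6 : c * (ξ - α) ^ d' * (α - β) = 0 := by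
      linear_combination h0 - (ξ - β) * h5
    exact mul_ne_zero (mul_ne_zero hc h3) (sub_ne_zero.mpr hαβ) h6
  rcases Nat.lt_or_ge d 2 with h2 | h2
  · left; omega
  right
  obtain ⟨d', rfl⟩ : ∃ d', d = d' + 2 := ⟨d - 2, by omega⟩
  have hDD := congrArg derivative hD
  have hz : derivative (C c' * (C (i : k) * (X - C ξ) ^ (i - 1))) = 0 := by
    have : i - 1 = 0 := by omega
    rw [this, pow_zero, mul_one, ← C_mul, derivative_C]
  rw [hz] at hDD
  simp only [derivative_sub, derivative_mul, derivative_C, derivative_pow, derivative_natCast,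
    derivative_X, zero_mul, zero_add, sub_zero, mul_one] at hDD
  have e2 : d' + 2 - 1 = d' + 1 := by omega
  rw [e2, Nat.add_sub_cancel] at hDD
  have h4 : ((d' + 2 : ℕ) : k) ≠ 0 := by exact_mod_cast Nat.succ_ne_zero (d' + 1)
  have h5 : ((d' + 1 : ℕ) : k) ≠ 0 := by exact_mod_cast Nat.succ_ne_zero d'
  have hd0 : d' = 0 := by
    by_contra hd0
    have h1 := congrArg (eval β) hDD
    simp only [eval_neg, eval_mul, eval_C, eval_pow, eval_sub, eval_X, eval_add, sub_self,
      eval_natCast, eval_zero] at h1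
    rw [zero_pow hd0, mul_zero, mul_zero, zero_sub, neg_eq_zero] at h1
    exact mul_ne_zero hc (mul_ne_zero h4 (mul_ne_zero h5
      (pow_ne_zero _ (sub_ne_zero.mpr hαβ.symm)))) h1
  subst hd0
  have hc1 : c = 1 := by
    have h1 := congrArg (eval β) hDD
    simp only [eval_neg, eval_mul, eval_C, eval_pow, eval_sub, eval_X, eval_add, sub_self,
      eval_natCast, eval_zero, pow_zero, mul_one] at h1
    push_cast at h1
    linear_combination (-1 / 2) * h1
  subst hc1
  have hi1 : i = 1 := by
    by_contra hi1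
    have hi0 : i = 0 := by omega
    subst hi0
    have h1 := congrArg (eval β) hD
    simp only [eval_neg, eval_mul, eval_C, eval_pow, eval_sub, eval_X, eval_add, sub_self,
      eval_natCast, eval_zero, pow_zero, mul_one, Nat.cast_zero, mul_zero, zero_add,
      Nat.add_one_sub_one, pow_one, one_mul] at h1
    push_cast at h1
    apply hαβ
    linear_combination (1 / 2) * h1
  subst hi1
  have h1 := congrArg (eval ξ) h
  simp only [eval_neg, eval_mul, eval_C, eval_pow, eval_sub, eval_X, eval_add, sub_self,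
      zero_add, pow_one, mul_zero, one_mul] at h1
  refine ⟨by norm_num, rfl, rfl, ?_⟩
  have : (α - β) * (2 * ξ - (α + β)) = 0 := by linear_combination h1
  rcases mul_eq_zero.mp this with h6 | h6
  · exact absurd (sub_eq_zero.mp h6) hαβ
  · linear_combination -h6

end alg

end Pool.Agent.SG
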