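import Pool.Agent.Lib_helper87.SG.C

/-!
# The unit equation on small groups: the points of order two
-/

set_option autoImplicit false
set_option linter.unusedSectionVars false
set_option linter.unusedSimpArgs false

open scoped TensorProduct

namespace Pool.Agent.SG

open WeierstrassCurve.Affine WithZero Polynomial
open MK4 (FT lg HK Closed hk sy Cst)
open Pool.Agent.TN (lgmul lgdiv lgpow lgneg lg1 lgz V0 lg_mem_V0 lgzpow lginv Orb)
open Pool.Agent.UEG
open Pool.Agent.GK
open Pool.Agent.UP
open FK4 (Lin LineQ Supp supp_iff UnitEq Generic unitEq_of lin_const lin_X lin_Y supp_one LineS Thr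
  S3 supp_const)

section

variable {k : Type*} [Field k] [DecidableEq k] [CharZero k] {W : WeierstrassCurve.Affine k}
  {F : Type*} [Field F] [DecidableEq F] [Algebra k F] {X Y : F}
  {H : AddSubgroup W.Point} [Fintype H] [DecidableEq H] {hg : Gen W X Y}

/-- the functions `X - x(a)` -/
def ell (F : Type*) [Field F] [Algebra k F] (X : F) : W.Point → F
  | .zero => 1
  | .some x _ _ => X - algebraMap k F x

omit [DecidableEq k] [CharZero k] [DecidableEq F] in
lemma ell_ne (hg : Gen W X Y) (a : W.Point) : ell F X a ≠ 0 := by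
  rcases a with _ | ⟨x, y, h⟩
  · exact one_ne_zero
  · exact hg.x_sub_ne x

omit [DecidableEq k] [CharZero k] [DecidableEq F] in
lemma thr_ell (a : W.Point) : Thr X Y (0 : W.Point) (ell F X a) := by
  rcases a with _ | ⟨x, y, h⟩
  · exact FK4.thr_one
  · exact FK4.thr_vert0 x

omit [Fintype H] [DecidableEq H] [DecidableEq F] in
lemma supp_ell (hg : Gen W X Y) (a : H) : Supp H X Y (ell F X (a : W.Point)) := by
  classical
  obtain ⟨a, ha⟩ := a
  rcases a with _ | ⟨x, y, h⟩
  · exact supp_one
  · rw [supp_iff]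
    show IsUn H X Y (X - algebraMap k F x)
    rw [← hR_sub hg]
    exact (good_IsUn hg).hx _ _ ⟨h, ha⟩

/-- a function of degree two with the zero `a`, the pole `b`, and the value `1` at `x` -/
def MoD (X : F) (a b x : H) (g : F) : Prop :=
  ∃ c c' : k, c ≠ 0 ∧ c' ≠ 0 ∧
    g = algebraMap k F c * (ell F X (a : W.Point) * (ell F X (b : W.Point))⁻¹) ∧
    1 - g = algebraMap k F c' * (ell F X (x : W.Point) * (ell F X (b : W.Point))⁻¹)

/-- a function of degree two -/
def Mo (H : AddSubgroup W.Point) (X g : F) : Prop :=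
  ∃ a b x : H, a ≠ b ∧ x ≠ a ∧ x ≠ b ∧ MoD X a b x g

omit [DecidableEq F] [CharZero k] [Fintype H] [DecidableEq H] in
lemma MoD.compl {a b x : H} {g : F} (h : MoD X a b x g) : MoD X x b a (1 - g) := by
  obtain ⟨c, c', h1, h2, h3, h4⟩ := h
  exact ⟨c', c, h2, h1, h4, by rw [sub_sub_cancel]; exact h3⟩

omit [DecidableEq F] [CharZero k] [Fintype H] [DecidableEq H] in
lemma MoD.inv (hg : Gen W X Y) {a b x : H} {g : F} (h : MoD X a b x g) :
    MoD X b a x g⁻¹ := by
  obtain ⟨c, c', h1, h2, h3, h4⟩ := h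
  have ha := ell_ne hg (a : W.Point)
  have hb := ell_ne hg (b : W.Point)
  have hc : algebraMap k F c ≠ 0 := (_root_.map_ne_zero _).mpr h1
  have hg0 : g ≠ 0 := by
    rw [h3]; exact mul_ne_zero hc (mul_ne_zero ha (inv_ne_zero hb))
  refine ⟨c⁻¹, -(c' * c⁻¹), inv_ne_zero h1, neg_ne_zero.mpr (mul_ne_zero h2 (inv_ne_zero h1)),
    ?_, ?_⟩
  · rw [h3, map_inv₀]; field_simp
  · have e : 1 - g⁻¹ = -((1 - g) * g⁻¹) := by field_simp; ring
    rw [e, h4, h3, map_neg, map_mul, map_inv₀]
    field_simp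

omit [DecidableEq F] [CharZero k] [Fintype H] [DecidableEq H] in
lemma Mo.compl {g : F} (h : Mo H X g) : Mo H X (1 - g) := by
  obtain ⟨a, b, x, h1, h2, h3, h4⟩ := h
  exact ⟨x, b, a, h3, h2.symm, h1, h4.compl⟩

omit [DecidableEq F] [CharZero k] [Fintype H] [DecidableEq H] in
lemma Mo.inv (hg : Gen W X Y) {g : F} (h : Mo H X g) : Mo H X g⁻¹ := by
  obtain ⟨a, b, x, h1, h2, h3, h4⟩ := h
  exact ⟨b, a, x, h1.symm, h3, h2, h4.inv hg⟩

omit [DecidableEq F] [Fintype H] [DecidableEq H] in
lemma Mo.lineS (hg : Gen W X Y) {g : F} (h : Mo H X g) : LineS H X Y g := by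
  obtain ⟨a, b, x, -, -, -, c, c', h1, h2, h3, h4⟩ := h
  have hb := ell_ne hg (b : W.Point)
  refine ⟨0, algebraMap k F c * ell F X (a : W.Point), ell F X (b : W.Point), (thr_ell _).smul _,
    thr_ell _, (supp_const h1).mul (supp_ell hg a), supp_ell hg b, ?_, ?_⟩
  · have : ell F X (b : W.Point) - algebraMap k F c * ell F X (a : W.Point) =
        algebraMap k F c' * ell F X (x : W.Point) := by
      have h5 : (1 - g) * ell F X (b : W.Point) = algebraMap k F c' * ell F X (x : W.Point) := by
        rw [h4]; field_simp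
      rw [← h5, h3]; field_simp
    rw [this]
    exact (supp_const h2).mul (supp_ell hg x)
  · rw [h3]; field_simp

/-- constants, functions of degree two, and squares -/
def Cl (H : AddSubgroup W.Point) (X f : F) : Prop :=
  (∃ c : k, f = algebraMap k F c) ∨ Mo H X f ∨
    ∃ u : F, Mo H X u ∧ Mo H X (-u) ∧ S3 (u ^ 2) f

omit [DecidableEq F] [Fintype H] [DecidableEq H] in
lemma Cl.compl (hg : Gen W X Y) {f : F} (h : Cl H X f) : Cl H X (1 - f) := by
  rcases h with ⟨c, rfl⟩ | h | ⟨u, h1, h2, h3⟩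
  · left; exact ⟨1 - c, by rw [map_sub, map_one]⟩
  · right; left
    exact h.compl
  · right; right
    refine ⟨u, h1, h2, ?_⟩
    have hu : u ≠ 0 := (h1.lineS hg).supp.1.1
    have hu1 : 1 - u ≠ 0 := (h1.lineS hg).supp.2.1
    have hu2 : 1 + u ≠ 0 := by have := (h2.lineS hg).supp.2.1; rwa [sub_neg_eq_add] at this
    have hu3 : 1 - u ^ 2 ≠ 0 := by
      have : 1 - u ^ 2 = (1 - u) * (1 + u) := by ring
      rw [this]; exact mul_ne_zero hu1 hu2
    have hu4 : u ^ 2 - 1 ≠ 0 := by rw [← neg_sub]; exact neg_ne_zero.mpr hu3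
    rcases h3 with rfl | rfl | rfl | rfl | rfl | rfl
    · exact Or.inr (Or.inl rfl)
    · left; ring
    · right; right; right; left; rfl
    · right; right; left; ring
    · right; right; right; right; right
      field_simp
      ring
    · right; right; right; right; left
      field_simp
      ring

omit [DecidableEq F] [Fintype H] [DecidableEq H] in
lemma Cl.inv (hg : Gen W X Y) {f : F} (h : Cl H X f) : Cl H X f⁻¹ := by
  rcases h with ⟨c, rfl⟩ | h | ⟨u, h1, h2, h3⟩
  · left; exact ⟨c⁻¹, by rw [map_inv₀]⟩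
  · right; left
    exact h.inv hg
  · right; right
    refine ⟨u, h1, h2, ?_⟩
    have hu : u ≠ 0 := (h1.lineS hg).supp.1.1
    have hu1 : 1 - u ≠ 0 := (h1.lineS hg).supp.2.1
    have hu2 : 1 + u ≠ 0 := by have := (h2.lineS hg).supp.2.1; rwa [sub_neg_eq_add] at this
    have hu3 : 1 - u ^ 2 ≠ 0 := by
      have : 1 - u ^ 2 = (1 - u) * (1 + u) := by ring
      rw [this]; exact mul_ne_zero hu1 hu2
    have hu4 : u ^ 2 - 1 ≠ 0 := by rw [← neg_sub]; exact neg_ne_zero.mpr hu3
    rcases h3 with rfl | rfl | rfl | rfl | rfl | rfl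
    · right; right; left; rw [one_div]
    · right; right; right; right; left; rw [one_div]
    · left; rw [one_div, inv_inv]
    · right; right; right; right; right
      field_simp
    · right; left; rw [one_div, inv_inv]
    · right; right; right; left
      field_simp

lemma PU_ell (h2 : ∀ a : H, a + a = 0) (hg : Gen W X Y) (a : H) :
    ∃ κ w, PU H lc2 hg (ell F X (a : W.Point))
      (fun x => (if x = a then 2 else 0) - (if x = 0 then 2 else 0)) κ w := by
  obtain ⟨a, ha⟩ := a
  rcases a with _ | ⟨x, y, h⟩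
  · have h1 := PU.const (lc := lc2) lc_ok hg (H := H) (c := (1 : k)) one_ne_zero
    rw [map_one] at h1
    have e : (fun x : H => ((if x = ⟨Point.zero, ha⟩ then 2 else 0) -
        (if x = 0 then 2 else 0) : ℤ)) = 0 := by
      funext x
      exact sub_self _
    rw [e]
    exact ⟨_, _, h1⟩
  · have h1 := PU.vert lc_ok hg h ha
    have e : (fun z : H => ((if z = ⟨_, ha⟩ then 2 else 0) -
        (if z = 0 then 2 else 0) : ℤ)) = mV ⟨_, ha⟩ := by
      funext z
      unfold mV
      have e : -(⟨_, ha⟩ : H) = ⟨_, ha⟩ := neg_eq_of_add_eq_zero_left (h2 _)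
      rw [e]
      split_ifs <;> norm_num
    rw [e]
    exact ⟨_, _, h1⟩

lemma PU_pow {f : F} {m : H → ℤ} {κ : FT F} {w : W.FunctionField}
    (h : PU H lc2 hg f m κ w) (n : ℕ) :
    ∃ κ' w', PU H lc2 hg (f ^ n) (fun x => n * m x) κ' w' := by
  induction n with
  | zero =>
    have h1 := PU.const (lc := lc2) lc_ok hg (H := H) (c := (1 : k)) one_ne_zero
    rw [map_one] at h1
    have e : (fun x => ((0 : ℕ) : ℤ) * m x) = 0 := by
      funext x
      rw [Nat.cast_zero, zero_mul]; rfl
    rw [e, pow_zero]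
    exact ⟨_, _, h1⟩
  | succ n ih =>
    obtain ⟨κ', w', h'⟩ := ih
    have e : (fun x => ((n + 1 : ℕ) : ℤ) * m x) = (fun x => (n : ℤ) * m x) + m := by
      funext x
      rw [Pi.add_apply]
      push_cast
      ring
    rw [e, pow_succ]
    exact ⟨_, _, h'.mul lc_ok h⟩

/-- the two fibres with one point -/
theorem two_single (hH : Fintype.card H = 4) {f : F} {m n : H → ℤ} (h : Pair hg f m n)
    (hc : ¬ ∃ c : k, f = algebraMap k F c) :
    ∃ (g : F) (m' n' : H → ℤ) (a b : H) (N : ℤ), Pair hg g m' n' ∧ (Cl H X g → Cl H X f) ∧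
      a ≠ b ∧ 0 < N ∧ ∀ x, m' x = (if x = a then N else 0) - (if x = b then N else 0) := by
  obtain ⟨a, b, c, ha, hb, hc'⟩ := h.three hc
  have hab : a ≠ b := by rintro rfl; omega
  have hac : a ≠ c := by rintro rfl; rcases h.tri a with h2 | h2 | h2 <;> omega
  have hbc : b ≠ c := by rintro rfl; rcases h.tri b with h2 | h2 | h2 <;> omega
  have hcard : ({a, b, c} : Finset H).card = 3 := Finset.card_eq_three.mpr ⟨a, b, c, hab, hac, hbc, rfl⟩
  obtain ⟨t, ht⟩ : ∃ t, t ∉ ({a, b, c} : Finset H) := by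
    by_contra h0
    push Not at h0
    have h1 : ({a, b, c} : Finset H) = Finset.univ := Finset.eq_univ_iff_forall.mpr h0
    rw [h1, Finset.card_univ, hH] at hcard
    omega
  simp only [Finset.mem_insert, Finset.mem_singleton, not_or] at ht
  obtain ⟨hta, htb, htc⟩ := ht
  have huniv : (Finset.univ : Finset H) = {t, a, b, c} := by
    symm
    apply Finset.eq_univ_of_card
    rw [Finset.card_insert_of_notMem (by simp [hta, htb, htc]), hcard, hH]
  have hcase : ∀ x : H, x = t ∨ x = a ∨ x = b ∨ x = c := by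
    intro x
    have := Finset.mem_univ x
    rw [huniv] at this
    simpa using this
  have hsum : ∀ g : H → ℤ, ∑ x, g x = g t + (g a + (g b + g c)) := by
    intro g
    rw [huniv, Finset.sum_insert (by simp [hta, htb, htc]), Finset.sum_insert (by simp [hab, hac]),
      Finset.sum_insert (by simp [hbc]), Finset.sum_singleton]
  have s1 := h.m0
  have s2 := h.n0
  rw [hsum] at s1 s2
  have hna : n a = 0 := by rcases h.tri a with h2 | h2 | h2 <;> omega
  have hnb : n b = m b := by rcases h.tri b with h2 | h2 | h2 <;> omega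
  have hmc : m c = 0 := by rcases h.tri c with h2 | h2 | h2 <;> omega
  have hf0 := h.uf.1
  have hg0 := h.ug.1
  have hg0' : f - 1 ≠ 0 := by rw [← neg_sub]; exact neg_ne_zero.mpr hg0
  rcases h.tri t with ht | ht | ht
  · refine ⟨1 - f, n, m, c, b, n c, h.compl, fun h' => ?_, hbc.symm, hc', ?_⟩
    · have := h'.compl hg; rwa [sub_sub_cancel] at this
    · intro x
      rcases hcase x with rfl | rfl | rfl | rfl
      · rw [if_neg htc, if_neg htb]; omega
      · rw [if_neg hac, if_neg hab]; omega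
      · rw [if_neg hbc, if_pos rfl]; omega
      · rw [if_pos rfl, if_neg hbc.symm]; omega
  · refine ⟨(1 - f⁻¹)⁻¹, _, _, a, c, m a, h.inv.compl.inv, fun h' => ?_, hac, ha, ?_⟩
    · have := ((h'.inv hg).compl hg).inv hg
      rwa [inv_inv, sub_sub_cancel, inv_inv] at this
    · intro x
      rcases hcase x with rfl | rfl | rfl | rfl
      · rw [if_neg hta, if_neg htc]; omega
      · rw [if_pos rfl, if_neg hac]; omega
      · rw [if_neg hab.symm, if_neg hbc]; omega
      · rw [if_neg hac.symm, if_pos rfl]; omega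
  · refine ⟨f, m, n, a, b, m a, h, fun h' => h', hab, ha, ?_⟩
    intro x
    rcases hcase x with rfl | rfl | rfl | rfl
    · rw [if_neg hta, if_neg htb]; omega
    · rw [if_pos rfl, if_neg hab]; omega
    · rw [if_neg hab.symm, if_pos rfl]; omega
    · rw [if_neg hac.symm, if_neg hbc.symm]; omega

end

end Pool.Agent.SG
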