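import Pool.Agent.Lib_helper24.FAM.DefsU
import Pool.Agent.Lib_helper24.FAM.DefsQ

set_option autoImplicit false

/-!
# The clause for the small groups
-/

open scoped TensorProduct WithZero

namespace Pool.Agent.FK4

open Pool.Agent.MK4 WeierstrassCurve.Affine

variable {k : Type*} [Field k] [DecidableEq k] {W : WeierstrassCurve.Affine k} {F : Type*}
  [Field F] [Algebra k F]

/-- The unit equation on the functions supported on `H`, for a group of points of order two: the
constants, the quotients of lines, and the squares `u ^ 2`, where `u` and `-u` are quotients of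
lines, up to the substitutions `f ↦ 1 - f`, `f ↦ 1 / f`. -/
def UnitEqT (H : AddSubgroup W.Point) (X Y : F) : Prop :=
  ∀ f : F, (Supp H X Y f ∧ Supp H X Y (1 - f)) ↔
    (∃ a : k, a ≠ 0 ∧ a ≠ 1 ∧ f = algebraMap k F a) ∨ LineS H X Y f ∨
      ∃ u : F, LineS H X Y u ∧ LineS H X Y (-u) ∧ S3 (u ^ 2) f

/-- Groups of order at most three, and groups of order four whose elements are killed by two: the
closed elements are constant.  If the order is at most two, or if it is three and `j ≠ 0`, the
constants are all the solutions of the unit equation. -/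
def Small (H : AddSubgroup W.Point) [Fintype H] (X Y : F) : Prop :=
  (Fintype.card H ≤ 3 → UnitEq H X Y ∧ ClosedIn H X Y ⊥ ∧
    (Fintype.card H ≤ 2 ∨ W.c₄ ≠ 0 →
      ∀ f : F, Supp H X Y f → Supp H X Y (1 - f) → ∃ a : k, f = algebraMap k F a)) ∧
  (Fintype.card H = 4 → (∀ a : H, a + a = 0) → UnitEqT H X Y ∧ ClosedIn H X Y ⊥)

end Pool.Agent.FK4
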