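import Pool.Agent.Lib_helper87.SG.D

/-!
# The unit equation on small groups: the points of order two
-/

set_option autoImplicit false
set_option linter.unusedSectionVars false
set_option linter.unusedSimpArgs false

open scoped TensorProduct

namespace Pool.Agent.SG

open WeierstrassCurve.Affine WithZero Polynomial
open MK4 (FT lg HK Closed hk sy Cst)
open Pool.Agent.TN (lgmul lgdiv lgpow lgneg lg1 lgz V0 lg_mem_V0 lgzpow lginv Orb)
open Pool.Agent.UEG
open Pool.Agent.GK
open Pool.Agent.UP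
open FK4 (Lin LineQ Supp supp_iff UnitEq Generic unitEq_of lin_const lin_X lin_Y supp_one LineS Thr
  S3 supp_const)

section

variable {k : Type*} [Field k] [DecidableEq k] [CharZero k] {W : WeierstrassCurve.Affine k}
  {F : Type*} [Field F] [DecidableEq F] [Algebra k F] {X Y : F}
  {H : AddSubgroup W.Point} [Fintype H] [DecidableEq H] {hg : Gen W X Y}

omit [Fintype H] [DecidableEq H] in
lemma par (h2 : ∀ a : H, a + a = 0) (z : ℤ) (a : H) : z • a = 0 ∧ z % 2 = 0 ∨
    z • a = a ∧ z % 2 = 1 := by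
  rcases Int.emod_two_eq_zero_or_one z with h | h
  · left
    obtain ⟨w, rfl⟩ : ∃ w, z = w * 2 := ⟨z / 2, by omega⟩
    exact ⟨by rw [mul_smul, two_smul, h2, smul_zero], h⟩
  · right
    obtain ⟨w, rfl⟩ : ∃ w, z = w * 2 + 1 := ⟨z / 2, by omega⟩
    exact ⟨by rw [add_smul, mul_smul, two_smul, h2, smul_zero, zero_add, one_smul], h⟩

/-- the equation for a function with one zero and one pole -/
theorem core_eq (hH : Fintype.card H = 4) (h2 : ∀ a : H, a + a = 0) {g : F} {m n : H → ℤ}
    (h : Pair hg g m n) {a b : H} (hab : a ≠ b) {N : ℤ} (hN : 0 < N)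
    (hm : ∀ x, m x = (if x = a then N else 0) - (if x = b then N else 0)) :
    ∃ (d i j : ℕ) (c c' : k) (x y : H), 0 < d ∧ i + j = d ∧ c ≠ 0 ∧ c' ≠ 0 ∧ x ≠ a ∧ x ≠ b ∧
      y ≠ a ∧ y ≠ b ∧ x ≠ y ∧ (∀ z, z = a ∨ z = b ∨ z = x ∨ z = y) ∧
      g = algebraMap k F c * (ell F X (a : W.Point) ^ d * (ell F X (b : W.Point) ^ d)⁻¹) ∧
      1 - g = algebraMap k F c' * (ell F X (x : W.Point) ^ i * ell F X (y : W.Point) ^ j *
        (ell F X (b : W.Point) ^ d)⁻¹) := by
  have hcard : ({a, b} : Finset H).card = 2 := Finset.card_eq_two.mpr ⟨a, b, hab, rfl⟩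
  obtain ⟨x, hx⟩ : ∃ x, x ∉ ({a, b} : Finset H) := by
    by_contra h0
    push Not at h0
    have h1 : ({a, b} : Finset H) = Finset.univ := Finset.eq_univ_iff_forall.mpr h0
    rw [h1, Finset.card_univ, hH] at hcard
    omega
  have hcard' : (insert x ({a, b} : Finset H)).card = 3 := by
    rw [Finset.card_insert_of_notMem hx, hcard]
  obtain ⟨y, hy⟩ : ∃ y, y ∉ (insert x ({a, b} : Finset H)) := by
    by_contra h0
    push Not at h0
    have h1 : (insert x ({a, b} : Finset H)) = Finset.univ := Finset.eq_univ_iff_forall.mpr h0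
    rw [h1, Finset.card_univ, hH] at hcard'
    omega
  have huniv : (Finset.univ : Finset H) = insert y (insert x ({a, b} : Finset H)) := by
    symm
    apply Finset.eq_univ_of_card
    rw [Finset.card_insert_of_notMem hy, hcard', hH]
  simp only [Finset.mem_insert, Finset.mem_singleton, not_or] at hx hy
  obtain ⟨hxa, hxb⟩ := hx
  obtain ⟨hyx, hya, hyb⟩ := hy
  replace hxa : x ≠ a := hxa
  replace hxb : x ≠ b := hxb
  replace hyx : y ≠ x := hyx
  replace hya : y ≠ a := hya
  replace hyb : y ≠ b := hyb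
  have hcase : ∀ z : H, z = a ∨ z = b ∨ z = x ∨ z = y := by
    intro z
    have := Finset.mem_univ z
    rw [huniv] at this
    simp only [Finset.mem_insert, Finset.mem_singleton] at this
    tauto
  have hsum : ∀ f : H → ℤ, ∑ z, f z = f y + (f x + (f a + f b)) := by
    intro f
    rw [huniv, Finset.sum_insert (by simp [hyx, hya, hyb]), Finset.sum_insert (by simp [hxa, hxb]),
      Finset.sum_insert (by simp [hab]), Finset.sum_singleton]
  have hsum' : ∀ f : H → H, ∑ z, f z = f y + (f x + (f a + f b)) := by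
    intro f
    rw [huniv, Finset.sum_insert (by simp [hyx, hya, hyb]), Finset.sum_insert (by simp [hxa, hxb]),
      Finset.sum_insert (by simp [hab]), Finset.sum_singleton]
  have hma : m a = N := by rw [hm, if_pos rfl, if_neg hab]; ring
  have hmb : m b = -N := by rw [hm, if_neg hab.symm, if_pos rfl]; ring
  have hmx : m x = 0 := by rw [hm, if_neg hxa, if_neg hxb]; ring
  have hmy : m y = 0 := by rw [hm, if_neg hya, if_neg hyb]; ring
  have hna : n a = 0 := by rcases h.tri a with h3 | h3 | h3 <;> omega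
  have hnb : n b = -N := by rcases h.tri b with h3 | h3 | h3 <;> omega
  have hnx : 0 ≤ n x := by rcases h.tri x with h3 | h3 | h3 <;> omega
  have hny : 0 ≤ n y := by rcases h.tri y with h3 | h3 | h3 <;> omega
  have s2 := h.n0
  have t1 := h.m1
  have t2 := h.n1
  rw [hsum] at s2
  rw [hsum'] at t1 t2
  rw [hma, hmb, hmx, hmy, zero_smul, zero_smul, zero_add, zero_add, neg_smul] at t1
  rw [hna, hnb, zero_smul, zero_add, neg_smul] at t2
  -- parities
  have hNe : N % 2 = 0 := by
    rcases par h2 N a with h3 | h3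
    · exact h3.2
    · rcases par h2 N b with h4 | h4
      · exact h4.2
      · rw [h3.1, h4.1, ← sub_eq_add_neg] at t1
        exact absurd (sub_eq_zero.mp t1) hab
  have hNb : N • b = 0 := by
    rcases par h2 N b with h4 | h4
    · exact h4.1
    · omega
  rw [hNb, neg_zero, add_zero] at t2
  have hnxe : n x % 2 = 0 := by
    rcases par h2 (n x) x with h3 | h3
    · exact h3.2
    · rcases par h2 (n y) y with h4 | h4
      · omega
      · rw [h3.1, h4.1] at t2
        have : y = x := by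
          have h5 : y = -x := eq_neg_of_add_eq_zero_left t2
          rw [h5]; exact neg_eq_of_add_eq_zero_left (h2 x)
        exact absurd this hyx
  obtain ⟨d, hd⟩ : ∃ d : ℕ, N = 2 * d := ⟨(N / 2).toNat, by omega⟩
  obtain ⟨i, hi⟩ : ∃ i : ℕ, n x = 2 * i := ⟨(n x / 2).toNat, by omega⟩
  obtain ⟨j, hj⟩ : ∃ j : ℕ, n y = 2 * j := ⟨(n y / 2).toNat, by omega⟩
  obtain ⟨κ, κ', w, h3, h4⟩ := h.ex
  obtain ⟨_, _, la⟩ := PU_ell h2 hg a
  obtain ⟨_, _, lb⟩ := PU_ell h2 hg b
  obtain ⟨_, _, lx⟩ := PU_ell h2 hg x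
  obtain ⟨_, _, ly⟩ := PU_ell h2 hg y
  obtain ⟨_, _, la⟩ := PU_pow la d
  obtain ⟨_, _, lb⟩ := PU_pow lb d
  obtain ⟨_, _, lx⟩ := PU_pow lx i
  obtain ⟨_, _, ly⟩ := PU_pow ly j
  have q1 := la.mul lc_ok (lb.inv lc_ok)
  have q2 := (lx.mul lc_ok ly).mul lc_ok (lb.inv lc_ok)
  obtain ⟨c, hc, e1⟩ := eq_smul h3 (by
    convert q1 using 1
    funext z
    simp only [Pi.add_apply, Pi.neg_apply]
    rcases hcase z with rfl | rfl | rfl | rfl
    · rw [hma, if_pos rfl, if_neg hab]; split_ifs <;> omega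
    · rw [hmb, if_neg hab.symm, if_pos rfl]; split_ifs <;> omega
    · rw [hmx, if_neg hxa, if_neg hxb]; split_ifs <;> omega
    · rw [hmy, if_neg hya, if_neg hyb]; split_ifs <;> omega)
  obtain ⟨c', hc', e2⟩ := eq_smul h4 (by
    convert q2 using 1
    funext z
    simp only [Pi.add_apply, Pi.neg_apply]
    rcases hcase z with rfl | rfl | rfl | rfl
    · rw [hna, if_neg hxa.symm, if_neg hya.symm, if_neg hab]; split_ifs <;> omega
    · rw [hnb, if_neg hxb.symm, if_neg hyb.symm, if_pos rfl]; split_ifs <;> omega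
    · rw [hi, if_pos rfl, if_neg hyx.symm, if_neg hxb]; split_ifs <;> omega
    · rw [hj, if_neg hyx, if_pos rfl, if_neg hyb]; split_ifs <;> omega)
  exact ⟨d, i, j, c, c', x, y, by omega, by omega, hc, hc', hxa, hxb, hya, hyb, hyx.symm, hcase,
    e1, e2⟩

end

end Pool.Agent.SG
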