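import Pool.Agent.Lib_helper87.SG.M
import Pool.Agent.Lib_helper87.SG.Defs
import Pool.Agent.Lib_helper24.FAM.R45

/-!
# Small groups
-/

set_option autoImplicit false
set_option linter.unusedSectionVars false
set_option linter.unusedSimpArgs false

open scoped TensorProduct

namespace Pool.Agent.SG

open WeierstrassCurve.Affine
open MK4 (FT lg HK Closed hk sy Cst B2)
open Pool.Agent.TN (KC KC_eq Orb)
open Pool.Agent.UEG
open FK4 (Supp supp_iff UnitEq Generic unitEq_of UnitEqT Small S3 LineS ClosedIn OnlyConst Sp sp_eq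
  closedIn_bot supp_const)

variable {k : Type*} [Field k] [DecidableEq k] [CharZero k] {W : WeierstrassCurve.Affine k}
  {F : Type*} [Field F] [Algebra k F] {X Y : F}
  {H : AddSubgroup W.Point}

/-- the closed elements on at most two points -/
theorem closed2 [Fintype H] [DecidableEq H] [DecidableEq F] (hH : Fintype.card H ≤ 2)
    (hg : Gen W X Y) {z : HK F}
    (hz : z ∈ Submodule.span ℚ {z : HK F | ∃ (f : F) (u : FT F), IsUn H X Y f ∧
      IsUn H X Y (1 - f) ∧ z = hk (sy f) u}) : z ∈ KC k F := by
  refine Submodule.span_le.mpr ?_ hz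
  rintro _ ⟨f, u, h1, h2, rfl⟩
  obtain ⟨c, rfl⟩ := two_points hH hg h1 h2
  exact Submodule.subset_span ⟨c, u, rfl⟩

/-- **small groups** -/
theorem small [hF : Fintype H] (hg : Generic W X Y) : Small H X Y := by
  classical
  have hg' := hg.toU
  have hS : Sp H X Y = Submodule.span ℚ {z : HK F | ∃ (f : F) (u : FT F), IsUn H X Y f ∧
      IsUn H X Y (1 - f) ∧ z = hk (sy f) u} := sp_eq fun f => supp_iff
  refine ⟨fun hH => ?_, fun hH h2 => ?_⟩
  · rcases Nat.lt_or_ge (Fintype.card H) 3 with h3 | h3
    · have h3 : Fintype.card H ≤ 2 := by omega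
      refine ⟨unitEq_of fun f g1 g2 => Or.inl (two_points h3 hg' (supp_iff.mp g1)
        (supp_iff.mp g2)), closedIn_bot hg fun z hz _ => ?_, fun _ f g1 g2 =>
        two_points h3 hg' (supp_iff.mp g1) (supp_iff.mp g2)⟩
      rw [hS] at hz
      rw [← KC_eq]
      exact closed2 h3 hg' hz
    · have h3 : Fintype.card H = 3 := le_antisymm hH h3
      refine ⟨unitEq_of fun f g1 g2 => ?_, closedIn_bot hg fun z hz hc => ?_,
        fun h4 f g1 g2 => ?_⟩
      · rcases three_points h3 hg' (supp_iff.mp g1) (supp_iff.mp g2) with h | h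
        · exact Or.inl h
        · exact Or.inr h.1
      · rw [hS] at hz
        rw [← KC_eq]
        exact closed3 h3 hg' hz hc
      · rcases three_points h3 hg' (supp_iff.mp g1) (supp_iff.mp g2) with h | h
        · exact h
        · rcases h4 with h4 | h4
          · omega
          · exact absurd h.2 h4
  · refine ⟨fun f => ⟨?_, ?_⟩, closedIn_bot hg fun z hz hc => ?_⟩
    · rintro ⟨g1, g2⟩
      rcases four_points hH h2 hg' (supp_iff.mp g1) (supp_iff.mp g2) with ⟨c, rfl⟩ | h | h
      · left
        refine ⟨c, ?_, ?_, rfl⟩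
        · rintro rfl; exact g1.1 (map_zero _)
        · rintro rfl; exact g2.1 (by rw [map_one, sub_self])
      · exact Or.inr (Or.inl (h.lineS hg'))
      · obtain ⟨u, h3, h4, h5⟩ := h
        exact Or.inr (Or.inr ⟨u, h3.lineS hg', h4.lineS hg', h5⟩)
    · rintro (⟨c, h0, h1, rfl⟩ | h | ⟨u, h3, h4, h5⟩)
      · refine ⟨supp_const h0, ?_⟩
        have : 1 - algebraMap k F c = algebraMap k F (1 - c) := by rw [map_sub, map_one]
        rw [this]
        exact supp_const (sub_ne_zero.mpr (Ne.symm h1))
      · exact h.supp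
      · have s0 : Supp H X Y (u ^ 2) := h3.supp.1.pow 2
        have s1 : Supp H X Y (1 - u ^ 2) := by
          have : 1 - u ^ 2 = (1 - u) * (1 - -u) := by ring
          rw [this]; exact h3.supp.2.mul h4.supp.2
        have s2 : Supp H X Y (u ^ 2 - 1) := s1.sub_comm
        have n0 := s0.1
        have n1 := s1.1
        have n2 := s2.1
        rcases h5 with rfl | rfl | rfl | rfl | rfl | rfl
        · exact ⟨s0, s1⟩
        · exact ⟨s1, by rw [sub_sub_cancel]; exact s0⟩
        · refine ⟨FK4.supp_one.div s0, ?_⟩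
          have : 1 - 1 / u ^ 2 = (u ^ 2 - 1) / u ^ 2 := by rw [sub_div, div_self n0]
          rw [this]; exact s2.div s0
        · refine ⟨?_, by rw [sub_sub_cancel]; exact FK4.supp_one.div s0⟩
          have : 1 - 1 / u ^ 2 = (u ^ 2 - 1) / u ^ 2 := by rw [sub_div, div_self n0]
          rw [this]; exact s2.div s0
        · refine ⟨FK4.supp_one.div s1, ?_⟩
          have : 1 - 1 / (1 - u ^ 2) = -(u ^ 2) / (1 - u ^ 2) := by field_simp; ring
          rw [this]; exact s0.neg.div s1
        · refine ⟨s0.div s2, ?_⟩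
          have : 1 - u ^ 2 / (u ^ 2 - 1) = (-1) / (u ^ 2 - 1) := by field_simp; ring
          rw [this]; exact FK4.supp_one.neg.div s2
    · rw [hS] at hz
      rw [← KC_eq]
      exact closed4 hH h2 hg' hz hc

end Pool.Agent.SG
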