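import Pool.Agent.Lib_helper87.SG.E

/-!
# The unit equation on small groups: the points of order two
-/

set_option autoImplicit false
set_option linter.unusedSectionVars false
set_option linter.unusedSimpArgs false

open scoped TensorProduct

namespace Pool.Agent.SG

open WeierstrassCurve.Affine WithZero Polynomial
open MK4 (FT lg HK Closed hk sy Cst)
open Pool.Agent.TN (lgmul lgdiv lgpow lgneg lg1 lgz V0 lg_mem_V0 lgzpow lginv Orb)
open Pool.Agent.UEG
open Pool.Agent.GK
open Pool.Agent.UP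
open FK4 (Lin LineQ Supp supp_iff UnitEq Generic unitEq_of lin_const lin_X lin_Y supp_one LineS Thr
  S3 supp_const thr_one thr_vert0 thr_const)

section

variable {k : Type*} [Field k] [DecidableEq k] [CharZero k] {W : WeierstrassCurve.Affine k}
  {F : Type*} [Field F] [DecidableEq F] [Algebra k F] {X Y : F}
  {H : AddSubgroup W.Point} [Fintype H] [DecidableEq H] {hg : Gen W X Y}

/-- degree one -/
lemma mo_of {g : F} {a b x y : H} {c c' : k} {i j : ℕ} (hc : c ≠ 0) (hc' : c' ≠ 0)
    (hij : i + j = 1) (hab : a ≠ b) (hxa : x ≠ a) (hxb : x ≠ b) (hya : y ≠ a) (hyb : y ≠ b)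
    (e1 : g = algebraMap k F c * (ell F X (a : W.Point) ^ 1 * (ell F X (b : W.Point) ^ 1)⁻¹))
    (e2 : 1 - g = algebraMap k F c' * (ell F X (x : W.Point) ^ i * ell F X (y : W.Point) ^ j *
        (ell F X (b : W.Point) ^ 1)⁻¹)) :
    Mo H X g := by
  rw [pow_one, pow_one] at e1
  rcases Nat.eq_zero_or_pos i with hi | hi
  · have hj : j = 1 := by omega
    subst hi hj
    rw [pow_zero, pow_one, pow_one, one_mul] at e2
    exact ⟨a, b, y, hab, hya, hyb, c, c', hc, hc', e1, e2⟩
  · have hi : i = 1 := by omega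
    have hj : j = 0 := by omega
    subst hi hj
    rw [pow_zero, pow_one, pow_one, mul_one] at e2
    exact ⟨a, b, x, hab, hxa, hxb, c, c', hc, hc', e1, e2⟩

omit [Fintype H] [DecidableEq H] [CharZero k] in
/-- different points have different abscissas -/
lemma absc_ne (h2 : ∀ a : H, a + a = 0) {x y x' y' : k} {h : W.Nonsingular x y}
    {h' : W.Nonsingular x' y'} (hH : Point.some x y h ∈ H) (hH' : Point.some x' y' h' ∈ H)
    (hne : (⟨_, hH⟩ : H) ≠ ⟨_, hH'⟩) : x ≠ x' := by
  intro e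
  rcases Y_eq_of_X_eq h.1 h'.1 e with h3 | h3
  · apply hne
    subst e h3
    rfl
  · apply hne
    have h4 : (⟨_, hH'⟩ : H) = -⟨_, hH'⟩ := eq_neg_of_add_eq_zero_left (h2 _)
    rw [h4]
    apply Subtype.ext
    show Point.some x y h = -Point.some x' y' h'
    rw [Point.neg_some]
    simp only [Point.some.injEq]
    exact ⟨e, h3⟩

/-- poles at the origin only -/
theorem cl_pole (hH : Fintype.card H = 4) (h2 : ∀ a : H, a + a = 0) {g : F} {m n : H → ℤ}
    (h : Pair hg g m n) {a : H} (hab : a ≠ 0) {N : ℤ} (hN : 0 < N)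
    (hm : ∀ x, m x = (if x = a then N else 0) - (if x = 0 then N else 0)) : Cl H X g := by
  obtain ⟨d, i, j, c, c', x, y, hd, hij, hc, hc', hxa, hxb, hya, hyb, hxy, hcase, e1, e2⟩ :=
    core_eq hH h2 h hab hN hm
  obtain ⟨a, haH⟩ := a
  obtain ⟨x, hxH⟩ := x
  obtain ⟨y, hyH⟩ := y
  rcases a with _ | ⟨α, α', ga⟩
  · exact absurd rfl hab
  rcases x with _ | ⟨ξ, ξ', gx⟩
  · exact absurd rfl hxb
  rcases y with _ | ⟨η, η', gy⟩
  · exact absurd rfl hyb
  have n1 := absc_ne h2 _ _ hxa
  have n2 := absc_ne h2 _ _ hya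
  have n3 := absc_ne h2 _ _ hxy
  have e0 : ell F X ((0 : H) : W.Point) = 1 := rfl
  have ea : ell F X (Point.some α α' ga : W.Point) = X - algebraMap k F α := rfl
  have ex : ell F X (Point.some ξ ξ' gx : W.Point) = X - algebraMap k F ξ := rfl
  have ey : ell F X (Point.some η η' gy : W.Point) = X - algebraMap k F η := rfl
  rw [e0] at e1 e2
  simp only [ea, ex, ey, one_pow, inv_one, mul_one] at e1 e2
  have hp : (1 : k[X]) - C c * (Polynomial.X - C α) ^ d =
      C c' * ((Polynomial.X - C ξ) ^ i * (Polynomial.X - C η) ^ j) := by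
    rw [← sub_eq_zero]
    apply hg.tr'
    simp only [eval₂_sub, eval₂_mul, eval₂_pow, eval₂_C, eval₂_X, eval₂_one]
    rw [← e2, ← e1]
    ring
  rcases alg_A hc n1 n2 n3 hd hij hp with h1 | ⟨h1, h3, h4, h5, h6⟩
  · right; left
    subst h1
    refine mo_of (a := ⟨_, haH⟩) (b := 0) (x := ⟨_, hxH⟩) (y := ⟨_, hyH⟩) hc hc' hij hab hxa hxb
      hya hyb ?_ ?_
    · rw [e0, ea, e1]
      simp
    · rw [e0, ex, ey, e2]
      simp
  · right; right
    subst h1 h3 h4
    have hr : ξ - α ≠ 0 := sub_ne_zero.mpr n1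
    have hr' : algebraMap k F (ξ - α) ≠ 0 := (_root_.map_ne_zero _).mpr hr
    refine ⟨(X - algebraMap k F α) / algebraMap k F (ξ - α), ?_, ?_, ?_⟩
    · refine ⟨⟨_, haH⟩, 0, ⟨_, hxH⟩, hab, hxa, hxb, (ξ - α)⁻¹, -(ξ - α)⁻¹, inv_ne_zero hr,
        neg_ne_zero.mpr (inv_ne_zero hr), ?_, ?_⟩
      · rw [e0, ea, map_inv₀]; field_simp
      · rw [e0, ex, map_neg, map_inv₀]
        rw [map_sub] at hr' ⊢
        field_simp
        ring
    · refine ⟨⟨_, haH⟩, 0, ⟨_, hyH⟩, hab, hya, hyb, -(ξ - α)⁻¹, (ξ - α)⁻¹,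
        neg_ne_zero.mpr (inv_ne_zero hr), inv_ne_zero hr, ?_, ?_⟩
      · rw [e0, ea, map_neg, map_inv₀]; field_simp
      · have h7 := congrArg (algebraMap k F) h6
        simp only [map_add, map_mul, map_ofNat] at h7
        rw [e0, ey, map_inv₀]
        rw [map_sub] at hr' ⊢
        field_simp
        linear_combination h7
    · left
      have h7 := congrArg (algebraMap k F) h5
      rw [e1, div_pow, eq_div_iff (pow_ne_zero _ hr')]
      simp only [map_mul, map_pow, map_one] at h7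
      linear_combination (X - algebraMap k F α) ^ 2 * h7

/-- no zeros or poles at the origin, `f ≠ 1` there -/
theorem cl_free (hg : Gen W X Y) (h2 : ∀ a : H, a + a = 0) {g : F}
    {a b x : H} (hab : a ≠ b) (hxa : x ≠ a) (hxb : x ≠ b) (ha : a ≠ 0) (hb : b ≠ 0) (hx : x ≠ 0)
    {d i j : ℕ} (hij : i + j = d) {c c' : k} (hd : 0 < d) (hc : c ≠ 0) (hc' : c' ≠ 0)
    (e1 : g = algebraMap k F c * (ell F X (a : W.Point) ^ d * (ell F X (b : W.Point) ^ d)⁻¹))
    (e2 : 1 - g = algebraMap k F c' * (ell F X (x : W.Point) ^ i *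
        (ell F X (b : W.Point) ^ d)⁻¹)) : Cl H X g := by
  have h00 : ell F X ((0 : H) : W.Point) = 1 := rfl
  by_cases hd1 : d = 1
  · right; left
    subst hd1
    refine mo_of (x := x) (y := 0) hc hc' hij hab hxa hxb ha.symm hb.symm e1 ?_
    rw [h00, one_pow, mul_one]
    exact e2
  obtain ⟨a, haH⟩ := a
  obtain ⟨b, hbH⟩ := b
  obtain ⟨x, hxH⟩ := x
  rcases a with _ | ⟨α, α', ga⟩
  · exact absurd rfl ha
  rcases b with _ | ⟨β, β', gb⟩
  · exact absurd rfl hb
  rcases x with _ | ⟨ξ, ξ', gx⟩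
  · exact absurd rfl hx
  have n1 := absc_ne h2 _ _ hab
  have n2 := absc_ne h2 _ _ hxa
  have ea : ell F X (Point.some α α' ga : W.Point) = X - algebraMap k F α := rfl
  have ex : ell F X (Point.some ξ ξ' gx : W.Point) = X - algebraMap k F ξ := rfl
  have eb : ell F X (Point.some β β' gb : W.Point) = X - algebraMap k F β := rfl
  simp only [ea, ex, eb] at e1 e2
  have sb : X - algebraMap k F β ≠ 0 := hg.x_sub_ne β
  have sa : X - algebraMap k F α ≠ 0 := hg.x_sub_ne α
  have hp : (Polynomial.X - C β) ^ d - C c * (Polynomial.X - C α) ^ d =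
      C c' * (Polynomial.X - C ξ) ^ i := by
    rw [← sub_eq_zero]
    apply hg.tr'
    simp only [eval₂_sub, eval₂_mul, eval₂_pow, eval₂_C, eval₂_X, eval₂_one]
    have e3 : (1 - g) * (X - algebraMap k F β) ^ d =
        algebraMap k F c' * (X - algebraMap k F ξ) ^ i := by
      rw [e2]
      field_simp
    rw [← e3, e1]
    field_simp
    ring
  rcases alg_B hc n2 n1 hd hp with h1 | ⟨h1, h3, h4, h5⟩
  · exact absurd h1 hd1
  · right; right
    subst h1 h3 h4
    refine ⟨(X - algebraMap k F α) / (X - algebraMap k F β), ?_, ?_, ?_⟩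
    · refine ⟨⟨_, haH⟩, ⟨_, hbH⟩, 0, hab, ha.symm, hb.symm, 1, α - β, one_ne_zero,
        sub_ne_zero.mpr n1, ?_, ?_⟩
      · rw [ea, eb, map_one]; field_simp
      · rw [eb, h00, map_sub]; field_simp; ring
    · refine ⟨⟨_, haH⟩, ⟨_, hbH⟩, ⟨_, hxH⟩, hab, hxa, hxb, -1, 2, by norm_num, two_ne_zero,
        ?_, ?_⟩
      · rw [ea, eb, map_neg, map_one]; field_simp
      · have h7 := congrArg (algebraMap k F) h5
        simp only [map_add, map_mul, map_ofNat] at h7
        rw [ex, eb, map_ofNat]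
        field_simp
        linear_combination -h7
    · left
      rw [e1, map_one, one_mul, div_pow, div_eq_mul_inv]

/-- one zero and one pole -/
theorem cl_single (hH : Fintype.card H = 4) (h2 : ∀ a : H, a + a = 0) {g : F} {m n : H → ℤ}
    (h : Pair hg g m n) {a b : H} (hab : a ≠ b) {N : ℤ} (hN : 0 < N)
    (hm : ∀ x, m x = (if x = a then N else 0) - (if x = b then N else 0)) : Cl H X g := by
  by_cases hb : b = 0
  · subst hb
    exact cl_pole hH h2 h hab hN hm
  by_cases ha : a = 0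
  · subst ha
    have h3 := cl_pole hH h2 h.inv (a := b) hb hN (fun x => by rw [hm]; ring)
    have h4 := h3.inv hg
    rwa [inv_inv] at h4
  obtain ⟨d, i, j, c, c', x, y, hd, hij, hc, hc', hxa, hxb, hya, hyb, hxy, hcase, e1, e2⟩ :=
    core_eq hH h2 h hab hN hm
  rcases hcase 0 with h0 | h0 | h0 | h0
  · exact absurd h0.symm ha
  · exact absurd h0.symm hb
  · have e0 : ell F X (x : W.Point) = 1 := by rw [← h0]; rfl
    rw [e0, one_pow, one_mul] at e2
    exact cl_free hg h2 hab hya hyb ha hb (by rw [h0]; exact hxy.symm)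
      (by rw [add_comm]; exact hij) hd hc hc' e1 e2
  · have e0 : ell F X (y : W.Point) = 1 := by rw [← h0]; rfl
    rw [e0, one_pow, mul_one] at e2
    exact cl_free hg h2 hab hxa hxb ha hb (by rw [h0]; exact hxy) hij hd hc hc' e1 e2

/-- **the unit equation on the points of order two** -/
theorem four_points (hH : Fintype.card H = 4) (h2 : ∀ a : H, a + a = 0) (hg : Gen W X Y) {f : F}
    (hf : IsUn H X Y f) (hf' : IsUn H X Y (1 - f)) : Cl H X f := by
  by_cases hc : ∃ c : k, f = algebraMap k F c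
  · exact Or.inl hc
  obtain ⟨m, n, h⟩ := exists_pair hg hf hf'
  obtain ⟨g, m', n', a, b, N, h3, h4, hab, hN, hm⟩ := two_single hH h hc
  exact h4 (cl_single hH h2 h3 hab hN hm)

end

end Pool.Agent.SG
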