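import Pool.Agent.Lib_helper87.SG.G
import Pool.Agent.Lib_helper24.TN.N4K

/-!
# The closed elements on small groups: order three
-/

set_option autoImplicit false
set_option linter.unusedSectionVars false
set_option linter.unusedSimpArgs false

open scoped TensorProduct

namespace Pool.Agent.SG

open WeierstrassCurve.Affine WithZero Polynomial
open MK4 (FT lg HK Closed hk sy Cst)
open Pool.Agent.TN (lgmul lgdiv lgpow lgneg lg1 lgz V0 lg_mem_V0 lgzpow lginv Orb KC KC_eq
  hk_add_left hk_add_right hk_smul_left hk_smul_right hk_neg_left hk_neg_right hk_zero_left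
  hk_zero_right hk_sub_right hk_self hk_compl syinv sycompl exists_dual ct ct_mul3)
open Pool.Agent.TN (dE dE_sy closed_dE ct_KC)
open Pool.Agent.UEG
open Pool.Agent.GK
open Pool.Agent.UP

section

variable {k : Type*} [Field k] [DecidableEq k] [CharZero k] {W : WeierstrassCurve.Affine k}
  {F : Type*} [Field F] [DecidableEq F] [Algebra k F] {X Y : F}
  {H : AddSubgroup W.Point} [Fintype H] [DecidableEq H] {hg : Gen W X Y}

omit [DecidableEq F] in
lemma charF (F : Type*) [Field F] (k : Type*) [Field k] [CharZero k] [Algebra k F] : CharZero F :=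
  charZero_of_injective_algebraMap (algebraMap k F).injective

/-- functions with the same divisors of `f` and `1 - f` are equal -/
lemma Pair.unique {f f' : F} {m n : H → ℤ} (h : Pair hg f m n) (h' : Pair hg f' m n)
    (hc : ¬ ∃ c : k, f' = algebraMap k F c) : f = f' := by
  obtain ⟨_, _, _, a1, a2⟩ := h.ex
  obtain ⟨_, _, _, b1, b2⟩ := h'.ex
  obtain ⟨c, -, e1⟩ := eq_smul a1 b1
  obtain ⟨d, -, e2⟩ := eq_smul a2 b2
  have e3 : algebraMap k F (d - c) * f' = algebraMap k F (d - 1) := by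
    rw [map_sub, map_sub, map_one]
    linear_combination e1 + e2
  by_cases hcd : d - c = 0
  · rw [hcd, map_zero, zero_mul] at e3
    have hd : d - 1 = 0 := (map_eq_zero_iff _ (algebraMap k F).injective).mp e3.symm
    have hc1 : c = 1 := by linear_combination hd - hcd
    rw [e1, hc1, map_one, one_mul]
  · exfalso
    apply hc
    refine ⟨(d - c)⁻¹ * (d - 1), ?_⟩
    have : algebraMap k F (d - c) ≠ 0 := (_root_.map_ne_zero _).mpr hcd
    rw [map_mul, map_inv₀, ← e3]
    field_simp

/-- every solution has the symbol of a solution with the pole at the origin -/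
lemma norm3 (hH : Fintype.card H = 3) {f : F} {m n : H → ℤ} (h : Pair hg f m n)
    (hc : ¬ ∃ c : k, f = algebraMap k F c) : ∃ (u : F) (m' n' : H → ℤ) (a c : H),
      Pair hg u m' n' ∧ (¬ ∃ c : k, u = algebraMap k F c) ∧
      (sy f = sy u ∨ sy f = -sy u) ∧ a ≠ c ∧ a ≠ 0 ∧ c ≠ 0 ∧
      (∀ x : H, x = a ∨ x = c ∨ x = 0) ∧
      (∀ x, m' x = (if x = a then 3 else 0) - (if x = 0 then 3 else 0)) ∧
      ∀ x, n' x = (if x = c then 3 else 0) - (if x = 0 then 3 else 0) := by
  have : CharZero F := charF F k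
  obtain ⟨a, b, c, ha, hb, hc'⟩ := h.three hc
  have hab : a ≠ b := by rintro rfl; omega
  have hac : a ≠ c := by rintro rfl; rcases h.tri a with h2 | h2 | h2 <;> omega
  have hbc : b ≠ c := by rintro rfl; rcases h.tri b with h2 | h2 | h2 <;> omega
  have huniv : (Finset.univ : Finset H) = {a, b, c} := by
    symm
    apply Finset.eq_univ_of_card
    rw [hH]
    exact Finset.card_eq_three.mpr ⟨a, b, c, hab, hac, hbc, rfl⟩
  have h0 : (0 : H) ∈ ({a, b, c} : Finset H) := by rw [← huniv]; exact Finset.mem_univ _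
  simp only [Finset.mem_insert, Finset.mem_singleton] at h0
  have hna : n a = 0 := by rcases h.tri a with h2 | h2 | h2 <;> omega
  have hnb : n b = m b := by rcases h.tri b with h2 | h2 | h2 <;> omega
  have hmc : m c = 0 := by rcases h.tri c with h2 | h2 | h2 <;> omega
  rcases h0 with h0 | h0 | h0
  · have h4 := core3a hH h.inv (a := b) (c := c) (by omega) (by omega) (by rw [h0]; omega)
    refine ⟨f⁻¹, _, _, b, c, h.inv, ?_, Or.inr ?_, h4.1, h4.2.1, h4.2.2.1, h4.2.2.2.1,
      h4.2.2.2.2.2.1, h4.2.2.2.2.2.2⟩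
    · rintro ⟨r, hr⟩
      exact hc ⟨r⁻¹, by rw [map_inv₀, ← hr, inv_inv]⟩
    · rw [syinv, neg_neg]
  · rw [← h0] at hb
    have h4 := core3a hH h ha hc' hb
    exact ⟨f, m, n, a, c, h, hc, Or.inl rfl, h4.1, h4.2.1, h4.2.2.1, h4.2.2.2.1,
      h4.2.2.2.2.2.1, h4.2.2.2.2.2.2⟩
  · have h4 := core3a hH h.compl.inv (a := b) (c := a) (by omega) (by omega)
      (by rw [h0]; omega)
    refine ⟨(1 - f)⁻¹, _, _, b, a, h.compl.inv, ?_, Or.inl ?_, h4.1, h4.2.1, h4.2.2.1,
      h4.2.2.2.1, h4.2.2.2.2.2.1, h4.2.2.2.2.2.2⟩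
    · rintro ⟨r, hr⟩
      refine hc ⟨1 - r⁻¹, ?_⟩
      rw [map_sub, map_inv₀, ← hr, inv_inv, map_one, sub_sub_cancel]
    · rw [syinv, sycompl, neg_neg]

/-- the classes of `f` and `1 - f` are independent modulo the constants -/
lemma indep3 {f : F} {m n : H → ℤ} (h : Pair hg f m n) {a c : H}
    (ha : 0 < m a) (hc : 0 < n c) (q : Fin 2 → ℚ)
    (hq : ∑ i, q i • (![lg f, lg (1 - f)] : Fin 2 → FT F) i ∈ V0 k F) : q = 0 := by
  obtain ⟨κ, κ', w, h1, h2⟩ := h.ex
  rw [Fin.sum_univ_two] at hq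
  simp only [Matrix.cons_val_zero, Matrix.cons_val_one] at hq
  have hna : n a = 0 := by rcases h.tri a with h2 | h2 | h2 <;> omega
  have hmc : m c = 0 := by rcases h.tri c with h2 | h2 | h2 <;> omega
  rw [h1.lg, h2.lg] at hq
  have e2 : ∑ x, (q 0 * m x + q 1 * n x) • th (pp F H) (gp hg) x ∈ V0 k F := by
    have s : ∑ x, (q 0 * (m x : ℚ) + q 1 * n x) = 0 := by
      rw [Finset.sum_add_distrib, ← Finset.mul_sum, ← Finset.mul_sum]
      have s1 : ((∑ x, m x : ℤ) : ℚ) = 0 := by rw [h.m0]; norm_num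
      have s2 : ((∑ x, n x : ℤ) : ℚ) = 0 := by rw [h.n0]; norm_num
      push_cast at s1 s2
      rw [s1, s2]; ring
    have e3 : ∀ x, (q 0 * (m x : ℚ) + q 1 * n x) • th (pp F H) (gp hg) x =
        q 0 • ((m x : ℚ) • gg (pp F H) (gp hg - pp F H x)) +
        q 1 • ((n x : ℚ) • gg (pp F H) (gp hg - pp F H x)) -
          (q 0 * (m x : ℚ) + q 1 * n x) • mg (pp F H) := by
      intro x
      unfold th
      module
    rw [Finset.sum_congr rfl fun x _ => e3 x, Finset.sum_sub_distrib, Finset.sum_add_distrib,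
      ← Finset.smul_sum, ← Finset.smul_sum, ← Finset.sum_smul, s, zero_smul, sub_zero]
    have e4 : q 0 • ∑ x, (m x : ℚ) • gg (pp F H) (gp hg - pp F H x) +
        q 1 • ∑ x, (n x : ℚ) • gg (pp F H) (gp hg - pp F H x) =
        q 0 • (κ + ∑ x, (m x : ℚ) • gg (pp F H) (gp hg - pp F H x)) +
        q 1 • (κ' + ∑ x, (n x : ℚ) • gg (pp F H) (gp hg - pp F H x)) -
          (q 0 • κ + q 1 • κ') := by module
    rw [e4]
    exact Submodule.sub_mem _ hq (Submodule.add_mem _ (Submodule.smul_mem _ _ h1.κV)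
      (Submodule.smul_mem _ _ h2.κV))
  have e3 := th_indep H hg (indTh hg) (fun x => q 0 * (m x : ℚ) + q 1 * n x) e2 (by
    rw [Finset.sum_add_distrib, ← Finset.mul_sum, ← Finset.mul_sum]
    have s1 : ((∑ x, m x : ℤ) : ℚ) = 0 := by rw [h.m0]; norm_num
    have s2 : ((∑ x, n x : ℤ) : ℚ) = 0 := by rw [h.n0]; norm_num
    push_cast at s1 s2
    rw [s1, s2]; ring)
  have f1 := congrFun e3 a
  have f2 := congrFun e3 c
  simp only [Pi.zero_apply, hna, hmc, Int.cast_zero, mul_zero, add_zero, zero_add] at f1 f2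
  have g1 : (m a : ℚ) ≠ 0 := by exact_mod_cast ha.ne'
  have g2 : (n c : ℚ) ≠ 0 := by exact_mod_cast hc.ne'
  funext i
  fin_cases i
  · exact (mul_eq_zero.mp f1).resolve_right g1
  · exact (mul_eq_zero.mp f2).resolve_right g2

/-- **the closed elements on a group of order three** -/
theorem closed3 (hH : Fintype.card H = 3) (hg : Gen W X Y) {z : HK F}
    (hz : z ∈ Submodule.span ℚ {z : HK F | ∃ (f : F) (u : FT F), IsUn H X Y f ∧
      IsUn H X Y (1 - f) ∧ z = hk (sy f) u}) (hc : Closed z) : z ∈ KC k F := by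
  have : CharZero F := charF F k
  by_cases h0 : ∃ f : F, IsUn H X Y f ∧ IsUn H X Y (1 - f) ∧ ¬ ∃ c : k, f = algebraMap k F c
  swap
  · push Not at h0
    refine Submodule.span_le.mpr ?_ hz
    rintro _ ⟨f, u, h1, h2, rfl⟩
    obtain ⟨c, rfl⟩ := h0 f h1 h2
    exact Submodule.subset_span ⟨c, u, rfl⟩
  obtain ⟨f0, h1, h2, h3⟩ := h0
  obtain ⟨m0, n0, hp⟩ := exists_pair hg h1 h2
  obtain ⟨u, m, n, a, c, hu, hu', -, hac, ha0, hc0, hcase, hm, hn⟩ := norm3 hH hp h3
  -- all symbols
  have hall : ∀ f : F, IsUn H X Y f → IsUn H X Y (1 - f) →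
      (∃ c : k, f = algebraMap k F c) ∨ sy f = sy u ∨ sy f = -sy u := by
    intro f g1 g2
    by_cases g3 : ∃ c : k, f = algebraMap k F c
    · exact Or.inl g3
    right
    obtain ⟨m1, n1, hp⟩ := exists_pair hg g1 g2
    obtain ⟨v, m', n', a', c', hv, hv', hs, hac', ha0', hc0', hcase', hm', hn'⟩ := norm3 hH hp g3
    have key : sy v = sy u ∨ sy v = -sy u := by
      rcases hcase a' with e | e | e
      · have e2 : c' = c := by
          rcases hcase c' with e' | e' | e'
          · exact absurd (by rw [e, e']) hac'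
          · exact e'
          · exact absurd e' hc0'
        subst e e2
        have em : m' = m := by funext x; rw [hm, hm']
        have en : n' = n := by funext x; rw [hn, hn']
        subst em en
        left
        rw [hv.unique hu hu']
      · have e2 : c' = a := by
          rcases hcase c' with e' | e' | e'
          · exact e'
          · exact absurd (by rw [e, e']) hac'
          · exact absurd e' hc0'
        subst e e2
        have em : m' = n := by funext x; rw [hn, hm']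
        have en : n' = m := by funext x; rw [hm, hn']
        subst em en
        right
        have hu2 : ¬ ∃ c : k, 1 - u = algebraMap k F c := by
          rintro ⟨r, hr⟩
          exact hu' ⟨1 - r, by rw [map_sub, ← hr, map_one, sub_sub_cancel]⟩
        rw [hv.unique hu.compl hu2, sycompl]
      · exact absurd e ha0'
    rcases hs with e | e <;> rcases key with e' | e' <;> rw [e, e'] <;> simp
  -- the element
  have hel : ∀ z ∈ Submodule.span ℚ {z : HK F | ∃ (f : F) (u : FT F), IsUn H X Y f ∧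
      IsUn H X Y (1 - f) ∧ z = hk (sy f) u},
      ∃ (w : FT F) (κ : HK F), κ ∈ KC k F ∧ z = hk (sy u) w + κ := by
    intro z hz
    induction hz using Submodule.span_induction with
    | mem z hz =>
      obtain ⟨f, v, g1, g2, rfl⟩ := hz
      rcases hall f g1 g2 with ⟨c, rfl⟩ | e | e
      · exact ⟨0, _, Submodule.subset_span ⟨c, v, rfl⟩, by rw [hk_zero_right, zero_add]⟩
      · exact ⟨v, 0, Submodule.zero_mem _, by rw [e, add_zero]⟩
      · exact ⟨-v, 0, Submodule.zero_mem _, by rw [e, add_zero, hk_neg_left, hk_neg_right]⟩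
    | zero => exact ⟨0, 0, Submodule.zero_mem _, by rw [hk_zero_right, zero_add]⟩
    | add x y _ _ hx hy =>
      obtain ⟨w, κ, h1, h2⟩ := hx
      obtain ⟨w', κ', h1', h2'⟩ := hy
      exact ⟨w + w', κ + κ', Submodule.add_mem _ h1 h1', by rw [h2, h2', hk_add_right]; abel⟩
    | smul q x _ hx =>
      obtain ⟨w, κ, h1, h2⟩ := hx
      exact ⟨q • w, q • κ, Submodule.smul_mem _ _ h1, by rw [h2, hk_smul_right, smul_add]⟩
  obtain ⟨w, κ, hκ, ez⟩ := hel z hz
  have hma : 0 < m a := by rw [hm, if_pos rfl, if_neg ha0]; norm_num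
  have hnc : 0 < n c := by rw [hn, if_pos rfl, if_neg hc0]; norm_num
  obtain ⟨φ, hφ, hd⟩ := exists_dual (V0 k F) _ (indep3 hu hma hnc)
  have d00 : φ 0 (lg u) = 1 := by simpa using hd 0 0
  have d01 : φ 0 (lg (1 - u)) = 0 := by simpa using hd 0 1
  have d10 : φ 1 (lg u) = 0 := by simpa using hd 1 0
  have d11 : φ 1 (lg (1 - u)) = 1 := by simpa using hd 1 1
  have h5 := congrArg (ct (φ 0) (φ 1)) ((closed_dE z).mp hc)
  rw [ez, map_add, map_add, ct_KC (hφ 0) (hφ 1) hκ, add_zero, map_zero, dE_sy] at h5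
  have h6 := (ct_mul3 (φ 0) (φ 1) (lg (1 - u)) (lg u) w).symm.trans h5
  have h7 := (ExteriorAlgebra.ι_eq_zero_iff _).mp h6
  rw [d00, d01, d10, d11] at h7
  have h8 : w = φ 0 w • lg u + φ 1 w • lg (1 - u) := by
    have : w - (φ 0 w • lg u + φ 1 w • lg (1 - u)) = 0 := by
      rw [← neg_eq_zero, ← h7]; module
    exact sub_eq_zero.mp this
  have hu0 : u ≠ 0 := hu.uf.1
  have hu1 : u ≠ 1 := fun e => hu.ug.1 (by rw [e, sub_self])
  rw [ez, h8, hk_add_right, hk_smul_right, hk_smul_right, hk_self hu0 hu1, hk_compl hu0 hu1,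
    smul_zero, smul_zero, add_zero, zero_add]
  exact hκ

end

end Pool.Agent.SG
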