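import Pool.Agent.Lib_helper87.SG.K

/-!
# The closed elements on small groups: the points of order two
-/

set_option autoImplicit false
set_option linter.unusedSectionVars false
set_option linter.unusedSimpArgs false

open scoped TensorProduct

namespace Pool.Agent.SG

open WeierstrassCurve.Affine WithZero Polynomial
open MK4 (FT lg HK Closed hk sy Cst B2)
open Pool.Agent.TN (lgmul lgdiv lgpow lgneg lg1 lgz V0 lg_mem_V0 lgzpow lginv Orb KC KC_eq
  hk_add_left hk_add_right hk_smul_left hk_smul_right hk_neg_left hk_neg_right hk_zero_left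
  hk_zero_right hk_sub_right hk_self hk_compl syinv sycompl exists_dual ct ct_mul3)
open Pool.Agent.TN (dE dE_sy closed_dE ct_KC)
open Pool.Agent.UEG
open Pool.Agent.GK
open Pool.Agent.UP
open FK4 (S3)

/-! ### relations -/

section rel

variable {F : Type*} [Field F] [CharZero F]

lemma five {x y : F} (hx0 : x ≠ 0) (hx1 : x ≠ 1) (hy0 : y ≠ 0) (hy1 : y ≠ 1) (hxy : x ≠ y) :
    sy x - sy y + sy (y / x) - sy ((1 - x⁻¹) / (1 - y⁻¹)) + sy ((1 - x) / (1 - y)) = 0 :=
  K4M.five hx0 hx1 hy0 hy1 hxy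

lemma sy_sq {u : F} (h0 : u ≠ 0) (h1 : 1 - u ≠ 0) (h2 : 1 + u ≠ 0) :
    sy (u ^ 2) = (2 : ℚ) • sy u + (2 : ℚ) • sy (-u) := by
  have h3 : u ^ 2 ≠ 1 := by
    intro h
    have : (1 - u) * (1 + u) = 0 := by linear_combination -h
    rcases mul_eq_zero.mp this with h | h
    · exact h1 h
    · exact h2 h
  have h4 : u ≠ u ^ 2 := by
    intro h
    have : u * (1 - u) = 0 := by linear_combination h
    rcases mul_eq_zero.mp this with h | h
    · exact h0 h
    · exact h1 h
  have h1' : u ≠ 1 := fun h => h1 (by rw [h, sub_self])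
  have h5 := five h0 h1' (pow_ne_zero 2 h0) h3 h4
  have h6 : u - 1 ≠ 0 := by rw [← neg_sub]; exact neg_ne_zero.mpr h1
  have h7 : u + 1 ≠ 0 := by rw [add_comm]; exact h2
  have h8 : u ^ 2 - 1 ≠ 0 := sub_ne_zero.mpr h3
  have h8' : 1 - u ^ 2 ≠ 0 := by rw [← neg_sub]; exact neg_ne_zero.mpr h8
  have e1 : u ^ 2 / u = u := by field_simp
  have e2 : (1 - u⁻¹) / (1 - (u ^ 2)⁻¹) = (1 - (-u)⁻¹)⁻¹ := by
    have a1 : 1 - u⁻¹ = (u - 1) / u := by field_simp
    have a2 : 1 - (u ^ 2)⁻¹ = (u ^ 2 - 1) / u ^ 2 := by field_simp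
    have a3 : 1 - (-u)⁻¹ = (u + 1) / u := by field_simp; ring
    rw [a1, a2, a3]
    field_simp
    ring
  have e3 : (1 - u) / (1 - u ^ 2) = (1 - (-u))⁻¹ := by
    have a3 : 1 - (-u) = 1 + u := by ring
    rw [a3]
    field_simp
    ring
  rw [e1, e2, e3, syinv, sycompl, syinv, syinv, sycompl, neg_neg, neg_neg] at h5
  have h9 : sy (u ^ 2) = sy u + sy u + (sy (-u) + sy (-u)) := by
    have h10 : sy (u ^ 2) - (sy u + sy u + (sy (-u) + sy (-u))) = 0 := by
      rw [← neg_eq_zero, ← h5]; abel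
    exact sub_eq_zero.mp h10
  rw [h9, two_smul, two_smul]

/-- the orbit -/
lemma sy_S3 {v f : F} (hv : v ≠ 1) (h : S3 v f) : sy f = sy v ∨ sy f = -sy v :=
  TN.sy_orb hv h

end rel

section

variable {k : Type*} [Field k] [DecidableEq k] [CharZero k] {W : WeierstrassCurve.Affine k}
  {F : Type*} [Field F] [DecidableEq F] [Algebra k F] {X Y : F}
  {H : AddSubgroup W.Point} [Fintype H] [DecidableEq H] {hg : Gen W X Y}

/-- independence from divisors -/
lemma indep_gen {n : ℕ} (f : Fin n → F) (m : Fin n → H → ℤ)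
    (hP : ∀ i, ∃ κ w, PU H lc2 hg (f i) (m i) κ w) (q : Fin n → ℚ)
    (hq : ∑ i, q i • lg (f i) ∈ V0 k F) (x : H) : ∑ i, q i * m i x = 0 := by
  choose κ w h using hP
  have s0 : ∑ x, ∑ i, q i * (m i x : ℚ) = 0 := by
    rw [Finset.sum_comm]
    refine Finset.sum_eq_zero fun i _ => ?_
    rw [← Finset.mul_sum]
    have s1 : ((∑ x, m i x : ℤ) : ℚ) = 0 := by rw [(h i).s0]; norm_num
    push_cast at s1
    rw [s1, mul_zero]
  have e2 : ∑ x, (∑ i, q i * (m i x : ℚ)) • th (pp F H) (gp hg) x ∈ V0 k F := by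
    have e3 : ∀ x, (∑ i, q i * (m i x : ℚ)) • th (pp F H) (gp hg) x =
        (∑ i, q i • ((m i x : ℚ) • gg (pp F H) (gp hg - pp F H x))) -
          (∑ i, q i * (m i x : ℚ)) • mg (pp F H) := by
      intro x
      unfold th
      rw [smul_sub, Finset.sum_smul]
      congr 1
      refine Finset.sum_congr rfl fun i _ => ?_
      rw [mul_smul]
    rw [Finset.sum_congr rfl fun x _ => e3 x, Finset.sum_sub_distrib, ← Finset.sum_smul, s0,
      zero_smul, sub_zero, Finset.sum_comm]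
    have e4 : ∑ i, ∑ x, q i • ((m i x : ℚ) • gg (pp F H) (gp hg - pp F H x)) =
        ∑ i, q i • lg (f i) - ∑ i, q i • κ i := by
      rw [← Finset.sum_sub_distrib]
      refine Finset.sum_congr rfl fun i _ => ?_
      rw [← Finset.smul_sum, (h i).lg, smul_add]
      abel
    rw [e4]
    exact Submodule.sub_mem _ hq (Submodule.sum_mem _ fun i _ =>
      Submodule.smul_mem _ _ (h i).κV)
  exact congrFun (th_indep H hg (indTh hg) (fun x => ∑ i, q i * (m i x : ℚ)) e2 s0) x

/-- the function of degree two is determined -/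
lemma MoD.unique (h2 : ∀ a : H, a + a = 0) (hg : Gen W X Y) {a b x : H} (hab : a ≠ b) {g g' : F}
    (h : MoD X a b x g) (h' : MoD X a b x g') : g = g' := by
  obtain ⟨c, c', h1, h2', h3, h4⟩ := h
  obtain ⟨d, d', k1, k2, k3, k4⟩ := h'
  have hb := ell_ne hg (b : W.Point)
  have ha := ell_ne hg (a : W.Point)
  have hc0 : algebraMap k F c ≠ 0 := (_root_.map_ne_zero _).mpr h1
  have hc0' : algebraMap k F c' ≠ 0 := (_root_.map_ne_zero _).mpr h2'
  have e1 : g' = algebraMap k F (d / c) * g := by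
    rw [k3, h3, map_div₀]; field_simp
  have e2 : 1 - g' = algebraMap k F (d' / c') * (1 - g) := by
    rw [k4, h4, map_div₀]; field_simp
  set s := d / c
  set t := d' / c'
  have e3 : algebraMap k F (t - s) * g = algebraMap k F (t - 1) := by
    rw [map_sub, map_sub, map_one]
    linear_combination e1 + e2
  by_cases hst : t - s = 0
  · rw [hst, map_zero, zero_mul] at e3
    have hd : t - 1 = 0 := (map_eq_zero_iff _ (algebraMap k F).injective).mp e3.symm
    have hc1 : s = 1 := by linear_combination hd - hst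
    rw [e1, hc1, map_one, one_mul]
  · exfalso
    have hts : algebraMap k F (t - s) ≠ 0 := (_root_.map_ne_zero _).mpr hst
    have hg0 : g ≠ 0 := by
      rw [h3]; exact mul_ne_zero hc0 (mul_ne_zero ha (inv_ne_zero hb))
    have e4 : g = algebraMap k F ((t - 1) / (t - s)) := by
      rw [map_div₀, ← e3]; field_simp
    have hr : (t - 1) / (t - s) ≠ 0 := by
      intro h0
      rw [h0, map_zero] at e4
      exact hg0 e4
    obtain ⟨_, _, la⟩ := PU_ell h2 hg a
    obtain ⟨_, _, lb⟩ := PU_ell h2 hg b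
    have q1 := (PU.const (lc := lc2) lc_ok hg (H := H) h1).mul lc_ok (la.mul lc_ok (lb.inv lc_ok))
    rw [← h3, e4] at q1
    have q2 := congrFun (q1.unique (PU.const (lc := lc2) lc_ok hg (H := H) hr)).1 a
    simp only [Pi.add_apply, Pi.neg_apply, Pi.zero_apply, if_true, if_neg hab] at q2
    omega

/-- symbols of functions of degree two with permuted fibres -/
lemma MoD.perm (h2 : ∀ a : H, a + a = 0) (hg : Gen W X Y) {a b x : H} (hab : a ≠ b) (hxa : x ≠ a)
    (hxb : x ≠ b) {g0 : F} (h : MoD X a b x g0) {S : Submodule ℚ (B2 F)} (hS : sy g0 ∈ S)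
    {a' b' x' : H} (hp : (a' = a ∧ b' = b ∧ x' = x) ∨ (a' = x ∧ b' = b ∧ x' = a) ∨
      (a' = b ∧ b' = a ∧ x' = x) ∨ (a' = x ∧ b' = a ∧ x' = b) ∨ (a' = b ∧ b' = x ∧ x' = a) ∨
      (a' = a ∧ b' = x ∧ x' = b)) {g : F} (h' : MoD X a' b' x' g) : sy g ∈ S := by
  have : CharZero F := charF F k
  rcases hp with ⟨rfl, rfl, rfl⟩ | ⟨rfl, rfl, rfl⟩ | ⟨rfl, rfl, rfl⟩ | ⟨rfl, rfl, rfl⟩ |
    ⟨rfl, rfl, rfl⟩ | ⟨rfl, rfl, rfl⟩
  · rw [h'.unique h2 hg hab h]; exact hS
  · rw [h'.unique h2 hg hxb h.compl, sycompl]; exact Submodule.neg_mem _ hS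
  · rw [h'.unique h2 hg hab.symm (h.inv hg), syinv]; exact Submodule.neg_mem _ hS
  · rw [h'.unique h2 hg hxa (h.inv hg).compl, sycompl, syinv, neg_neg]; exact hS
  · rw [h'.unique h2 hg hxb.symm (h.compl.inv hg), syinv, sycompl, neg_neg]; exact hS
  · rw [h'.unique h2 hg hxa.symm ((h.inv hg).compl.inv hg), syinv, sycompl, syinv, neg_neg]
    exact Submodule.neg_mem _ hS

end

end Pool.Agent.SG
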