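import Pool.Agent.Lib_helper87.SG.L

/-!
# The closed elements on small groups: the points of order two
-/

set_option autoImplicit false
set_option linter.unusedSectionVars false
set_option linter.unusedSimpArgs false

open scoped TensorProduct

namespace Pool.Agent.SG

open WeierstrassCurve.Affine WithZero Polynomial
open MK4 (FT lg HK Closed hk sy Cst B2)
open Pool.Agent.TN (lgmul lgdiv lgpow lgneg lg1 lgz V0 lg_mem_V0 lgzpow lginv Orb KC KC_eq
  hk_add_left hk_add_right hk_smul_left hk_smul_right hk_neg_left hk_neg_right hk_zero_left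
  hk_zero_right hk_sub_right hk_self hk_compl syinv sycompl exists_dual ct ct_mul3)
open Pool.Agent.TN (dE dE_sy closed_dE ct_KC)
open Pool.Agent.UEG
open Pool.Agent.GK
open Pool.Agent.UP
open FK4 (S3)

/-! ### the linear algebra -/

section lin

variable {V : Type*} [AddCommGroup V] [Module ℚ V]

/-- the three equations -/
lemma lin3 {p q r : V →ₗ[ℚ] ℚ} {a b c α β γ w1 w2 w3 : V}
    (pa : p a = 1) (pb : p b = 0) (pc : p c = 0) (qa : q a = 0) (qb : q b = 1) (qc : q c = 0)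
    (ra : r a = 0) (rb : r b = 0) (rc : r c = 1) (pα : p α = 0) (pβ : p β = 0) (pγ : p γ = 0)
    (qα : q α = 0) (qβ : q β = 0) (qγ : q γ = 0) (rα : r α = 0) (rβ : r β = 0) (rγ : r γ = 0)
    (h : ∀ φ ψ : V →ₗ[ℚ] ℚ, (φ = p ∨ φ = q ∨ φ = r) → (ψ = p ∨ ψ = q ∨ ψ = r) →
      ((φ (b - α) * ψ (a - α) - φ (a - α) * ψ (b - α)) • w1 -
          (φ (b - α) * ψ w1 - φ w1 * ψ (b - α)) • (a - α) +
          (φ (a - α) * ψ w1 - φ w1 * ψ (a - α)) • (b - α)) +
        ((φ (c - γ) * ψ (a - γ) - φ (a - γ) * ψ (c - γ)) • w2 -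
          (φ (c - γ) * ψ w2 - φ w2 * ψ (c - γ)) • (a - γ) +
          (φ (a - γ) * ψ w2 - φ w2 * ψ (a - γ)) • (c - γ)) +
        ((φ (c - β) * ψ (b - β) - φ (b - β) * ψ (c - β)) • w3 -
          (φ (c - β) * ψ w3 - φ w3 * ψ (c - β)) • (b - β) +
          (φ (b - β) * ψ w3 - φ w3 * ψ (b - β)) • (c - β)) = 0) :
    ∃ s t s1 t1 s2 t2 s3 t3 : ℚ,
      w1 = s1 • (a - α) + t1 • (b - α) + (s • (c - γ) - t • (c - β)) ∧
      w2 = s2 • (a - γ) + t2 • (c - γ) + ((s - t) • (b - α) + t • (b - β)) ∧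
      w3 = s3 • (b - β) + t3 • (c - β) + (s • (a - γ) - (s - t) • (a - α)) := by
  have h1 := h p q (Or.inl rfl) (Or.inr (Or.inl rfl))
  have h2 := h p r (Or.inl rfl) (Or.inr (Or.inr rfl))
  have h3 := h q r (Or.inr (Or.inl rfl)) (Or.inr (Or.inr rfl))
  simp only [map_sub, pa, pb, pc, qa, qb, qc, ra, rb, rc, pα, pβ, pγ, qα, qβ, qγ, rα, rβ, rγ]
    at h1 h2 h3
  have e1 : w1 = p w1 • (a - α) + q w1 • (b - α) + (q w2 • (c - γ) - p w3 • (c - β)) := by
    have : w1 - (p w1 • (a - α) + q w1 • (b - α) + (q w2 • (c - γ) - p w3 • (c - β))) = 0 := by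
      rw [← neg_eq_zero, ← h1]; module
    exact sub_eq_zero.mp this
  have hr : r w1 = q w2 - p w3 := by
    have := congrArg r e1
    simp only [map_add, map_sub, map_smul, ra, rb, rc, rα, rβ, rγ, smul_eq_mul] at this
    linarith
  refine ⟨q w2, p w3, p w1, q w1, p w2, r w2, q w3, r w3, e1, ?_, ?_⟩
  · have : w2 - (p w2 • (a - γ) + r w2 • (c - γ) + ((q w2 - p w3) • (b - α) + p w3 • (b - β))) =
        0 := by
      rw [← neg_eq_zero, ← h2, ← hr]; module
    exact sub_eq_zero.mp this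
  · have : w3 - (q w3 • (b - β) + r w3 • (c - β) + (q w2 • (a - γ) - (q w2 - p w3) • (a - α))) =
        0 := by
      rw [← neg_eq_zero, ← h3, ← hr]; module
    exact sub_eq_zero.mp this

/-- the final step -/
lemma fin_alg {K : Type*} [AddCommGroup K] [Module ℚ K] (L1 L2 L3 L4 Lμ : V →ₗ[ℚ] K)
    (h4 : ∀ v, L4 v = -L1 v + L2 v - L3 v - Lμ v)
    {a b c α β γ w1 w2 w3 : V} {s t s1 t1 s2 t2 s3 t3 : ℚ}
    (z1 : L1 (a - α) = 0) (z1' : L1 (b - α) = 0) (z2 : L2 (a - γ) = 0) (z2' : L2 (c - γ) = 0)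
    (z3 : L3 (b - β) = 0) (z3' : L3 (c - β) = 0) (z4 : L4 (b + γ - (c + α)) = 0)
    (z4' : L4 (a + β - (c + α)) = 0)
    (x1 : w1 = s1 • (a - α) + t1 • (b - α) + (s • (c - γ) - t • (c - β)))
    (x2 : w2 = s2 • (a - γ) + t2 • (c - γ) + ((s - t) • (b - α) + t • (b - β)))
    (x3 : w3 = s3 • (b - β) + t3 • (c - β) + (s • (a - γ) - (s - t) • (a - α))) :
    L1 w1 + L2 w2 + L3 w3 = s • Lμ (b + γ - (c + α)) - t • Lμ (a + β - (c + α)) := by
  rw [h4] at z4 z4'
  subst x1 x2 x3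
  simp only [map_add, map_sub, map_smul] at *
  linear_combination (norm := module) (s1 - t) • z1 + (t1 + s) • z1' + (s2 + t) • z2 + (t2 + s - t) • z2' +
    (s3 + s) • z3 + (t3 - s + t) • z3' + s • z4 - t • z4'

end lin

section

variable {k : Type*} [Field k] [DecidableEq k] [CharZero k] {W : WeierstrassCurve.Affine k}
  {F : Type*} [Field F] [DecidableEq F] [Algebra k F] {X Y : F}
  {H : AddSubgroup W.Point} [Fintype H] [DecidableEq H] {hg : Gen W X Y}

/-- the symbols of the constants -/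
noncomputable def SC (k : Type*) [Field k] (F : Type*) [Field F] [Algebra k F] :
    Submodule ℚ (B2 F) := Submodule.span ℚ {s | ∃ c : k, s = sy (algebraMap k F c)}

omit [DecidableEq k] [CharZero k] [DecidableEq F] in
lemma hk_SC {s : B2 F} (hs : s ∈ SC k F) (u : FT F) : hk s u ∈ KC k F := by
  unfold SC at hs
  induction hs using Submodule.span_induction with
  | mem z hz =>
    obtain ⟨c, rfl⟩ := hz
    exact Submodule.subset_span ⟨c, u, rfl⟩
  | zero => rw [hk_zero_left]; exact Submodule.zero_mem _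
  | add a b _ _ ha hb => rw [hk_add_left]; exact Submodule.add_mem _ ha hb
  | smul q a _ ha => rw [hk_smul_left]; exact Submodule.smul_mem _ _ ha

/-- **the closed elements on the points of order two** -/
theorem closed4 (hH : Fintype.card H = 4) (h2 : ∀ a : H, a + a = 0) (hg : Gen W X Y) {z : HK F}
    (hz : z ∈ Submodule.span ℚ {z : HK F | ∃ (f : F) (u : FT F), IsUn H X Y f ∧
      IsUn H X Y (1 - f) ∧ z = hk (sy f) u}) (hc : Closed z) : z ∈ KC k F := by
  have : CharZero F := charF F k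
  -- the points
  have hcard0 : ({0} : Finset H).card = 1 := Finset.card_singleton _
  obtain ⟨T1, hT1⟩ : ∃ x, x ∉ ({0} : Finset H) := by
    by_contra h0
    push Not at h0
    have h1 : ({0} : Finset H) = Finset.univ := Finset.eq_univ_iff_forall.mpr h0
    rw [h1, Finset.card_univ, hH] at hcard0
    omega
  have hcard1 : (insert T1 ({0} : Finset H)).card = 2 := by
    rw [Finset.card_insert_of_notMem hT1, hcard0]
  obtain ⟨T2, hT2⟩ : ∃ x, x ∉ (insert T1 ({0} : Finset H)) := by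
    by_contra h0
    push Not at h0
    have h1 : (insert T1 ({0} : Finset H)) = Finset.univ := Finset.eq_univ_iff_forall.mpr h0
    rw [h1, Finset.card_univ, hH] at hcard1
    omega
  have hcard2 : (insert T2 (insert T1 ({0} : Finset H))).card = 3 := by
    rw [Finset.card_insert_of_notMem hT2, hcard1]
  obtain ⟨T3, hT3⟩ : ∃ x, x ∉ (insert T2 (insert T1 ({0} : Finset H))) := by
    by_contra h0
    push Not at h0
    have h1 : (insert T2 (insert T1 ({0} : Finset H))) = Finset.univ :=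
      Finset.eq_univ_iff_forall.mpr h0
    rw [h1, Finset.card_univ, hH] at hcard2
    omega
  have huniv : (Finset.univ : Finset H) = insert T3 (insert T2 (insert T1 ({0} : Finset H))) := by
    symm
    apply Finset.eq_univ_of_card
    rw [Finset.card_insert_of_notMem hT3, hcard2, hH]
  simp only [Finset.mem_insert, Finset.mem_singleton, not_or] at hT1 hT2 hT3
  obtain ⟨h21, h20⟩ := hT2
  obtain ⟨h32, h31, h30⟩ := hT3
  replace hT1 : T1 ≠ 0 := hT1
  replace h21 : T2 ≠ T1 := h21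
  replace h20 : T2 ≠ 0 := h20
  replace h32 : T3 ≠ T2 := h32
  replace h31 : T3 ≠ T1 := h31
  replace h30 : T3 ≠ 0 := h30
  have hcase : ∀ z : H, z = 0 ∨ z = T1 ∨ z = T2 ∨ z = T3 := by
    intro z
    have := Finset.mem_univ z
    rw [huniv] at this
    simp only [Finset.mem_insert, Finset.mem_singleton] at this
    tauto
  obtain ⟨e1, y1, g1, t1⟩ : ∃ (e y : k) (g : W.Nonsingular e y), (T1 : W.Point) = .some e y g := by
    obtain ⟨T, hT⟩ := T1
    rcases T with _ | ⟨x, y, g⟩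
    · exact absurd rfl hT1
    · exact ⟨x, y, g, rfl⟩
  obtain ⟨e2, y2, g2, t2⟩ : ∃ (e y : k) (g : W.Nonsingular e y), (T2 : W.Point) = .some e y g := by
    obtain ⟨T, hT⟩ := T2
    rcases T with _ | ⟨x, y, g⟩
    · exact absurd rfl h20
    · exact ⟨x, y, g, rfl⟩
  obtain ⟨e3, y3, g3, t3⟩ : ∃ (e y : k) (g : W.Nonsingular e y), (T3 : W.Point) = .some e y g := by
    obtain ⟨T, hT⟩ := T3
    rcases T with _ | ⟨x, y, g⟩
    · exact absurd rfl h30
    · exact ⟨x, y, g, rfl⟩
  have m1 : Point.some e1 y1 g1 ∈ H := by rw [← t1]; exact T1.2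
  have m2 : Point.some e2 y2 g2 ∈ H := by rw [← t2]; exact T2.2
  have m3 : Point.some e3 y3 g3 ∈ H := by rw [← t3]; exact T3.2
  have n21 : e2 ≠ e1 := absc_ne h2 m2 m1 (fun h => h21 (Subtype.ext (by
    rw [t1, t2]; exact congrArg Subtype.val h)))
  have n31 : e3 ≠ e1 := absc_ne h2 m3 m1 (fun h => h31 (Subtype.ext (by
    rw [t1, t3]; exact congrArg Subtype.val h)))
  have n32 : e3 ≠ e2 := absc_ne h2 m3 m2 (fun h => h32 (Subtype.ext (by
    rw [t2, t3]; exact congrArg Subtype.val h)))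
  have l0 : ell F X ((0 : H) : W.Point) = 1 := rfl
  have l1 : ell F X (T1 : W.Point) = X - algebraMap k F e1 := by rw [t1]; rfl
  have l2 : ell F X (T2 : W.Point) = X - algebraMap k F e2 := by rw [t2]; rfl
  have l3 : ell F X (T3 : W.Point) = X - algebraMap k F e3 := by rw [t3]; rfl
  have A0 : X - algebraMap k F e1 ≠ 0 := hg.x_sub_ne e1
  have B0 : X - algebraMap k F e2 ≠ 0 := hg.x_sub_ne e2
  have C0 : X - algebraMap k F e3 ≠ 0 := hg.x_sub_ne e3
  have k21 : e2 - e1 ≠ 0 := sub_ne_zero.mpr n21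
  have k31 : e3 - e1 ≠ 0 := sub_ne_zero.mpr n31
  have k32 : e3 - e2 ≠ 0 := sub_ne_zero.mpr n32
  have f21 : algebraMap k F e2 - algebraMap k F e1 ≠ 0 := by
    rw [← map_sub]; exact (_root_.map_ne_zero _).mpr k21
  have f31 : algebraMap k F e3 - algebraMap k F e1 ≠ 0 := by
    rw [← map_sub]; exact (_root_.map_ne_zero _).mpr k31
  have f32 : algebraMap k F e3 - algebraMap k F e2 ≠ 0 := by
    rw [← map_sub]; exact (_root_.map_ne_zero _).mpr k32
  -- the functions
  obtain ⟨M1, hM1⟩ : ∃ M, M = (X - algebraMap k F e1) / (algebraMap k F e2 - algebraMap k F e1) :=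
    ⟨_, rfl⟩
  obtain ⟨M2, hM2⟩ : ∃ M, M = (X - algebraMap k F e1) / (algebraMap k F e3 - algebraMap k F e1) :=
    ⟨_, rfl⟩
  obtain ⟨M3, hM3⟩ : ∃ M, M = (X - algebraMap k F e2) / (algebraMap k F e3 - algebraMap k F e2) :=
    ⟨_, rfl⟩
  obtain ⟨M4, hM4⟩ : ∃ M, M = (X - algebraMap k F e2) * (algebraMap k F e3 - algebraMap k F e1) /
    ((X - algebraMap k F e3) * (algebraMap k F e2 - algebraMap k F e1)) := ⟨_, rfl⟩
  have i1 : 1 - M1 = -((X - algebraMap k F e2) / (algebraMap k F e2 - algebraMap k F e1)) := by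
    rw [hM1]; field_simp; ring
  have i2 : 1 - M2 = -((X - algebraMap k F e3) / (algebraMap k F e3 - algebraMap k F e1)) := by
    rw [hM2]; field_simp; ring
  have i3 : 1 - M3 = -((X - algebraMap k F e3) / (algebraMap k F e3 - algebraMap k F e2)) := by
    rw [hM3]; field_simp; ring
  have i4 : 1 - M4 = -((X - algebraMap k F e1) * (algebraMap k F e3 - algebraMap k F e2) /
      ((X - algebraMap k F e3) * (algebraMap k F e2 - algebraMap k F e1))) := by
    rw [hM4]; field_simp; ring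
  have d1 : MoD X T1 0 T2 M1 := by
    refine ⟨(e2 - e1)⁻¹, -(e2 - e1)⁻¹, inv_ne_zero k21, neg_ne_zero.mpr (inv_ne_zero k21), ?_, ?_⟩
    · rw [l0, l1, hM1, map_inv₀, map_sub]; field_simp
    · rw [l0, l2, i1, map_neg, map_inv₀, map_sub]; field_simp
  have d2 : MoD X T1 0 T3 M2 := by
    refine ⟨(e3 - e1)⁻¹, -(e3 - e1)⁻¹, inv_ne_zero k31, neg_ne_zero.mpr (inv_ne_zero k31), ?_, ?_⟩
    · rw [l0, l1, hM2, map_inv₀, map_sub]; field_simp
    · rw [l0, l3, i2, map_neg, map_inv₀, map_sub]; field_simp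
  have d3 : MoD X T2 0 T3 M3 := by
    refine ⟨(e3 - e2)⁻¹, -(e3 - e2)⁻¹, inv_ne_zero k32, neg_ne_zero.mpr (inv_ne_zero k32), ?_, ?_⟩
    · rw [l0, l2, hM3, map_inv₀, map_sub]; field_simp
    · rw [l0, l3, i3, map_neg, map_inv₀, map_sub]; field_simp
  have d4 : MoD X T2 T3 T1 M4 := by
    refine ⟨(e3 - e1) / (e2 - e1), -((e3 - e2) / (e2 - e1)), div_ne_zero k31 k21,
      neg_ne_zero.mpr (div_ne_zero k32 k21), ?_, ?_⟩
    · rw [l2, l3, hM4, map_div₀, map_sub, map_sub]; field_simp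
    · rw [l1, l3, i4, map_neg, map_div₀, map_sub, map_sub]; field_simp
  have M10 : M1 ≠ 0 := by rw [hM1]; exact div_ne_zero A0 f21
  have M11 : 1 - M1 ≠ 0 := by rw [i1]; exact neg_ne_zero.mpr (div_ne_zero B0 f21)
  have M20 : M2 ≠ 0 := by rw [hM2]; exact div_ne_zero A0 f31
  have M21 : 1 - M2 ≠ 0 := by rw [i2]; exact neg_ne_zero.mpr (div_ne_zero C0 f31)
  have M30 : M3 ≠ 0 := by rw [hM3]; exact div_ne_zero B0 f32
  have M31 : 1 - M3 ≠ 0 := by rw [i3]; exact neg_ne_zero.mpr (div_ne_zero C0 f32)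
  have M40 : M4 ≠ 0 := by rw [hM4]; exact div_ne_zero (mul_ne_zero B0 f31) (mul_ne_zero C0 f21)
  have M41 : 1 - M4 ≠ 0 := by
    rw [i4]; exact neg_ne_zero.mpr (div_ne_zero (mul_ne_zero A0 f32) (mul_ne_zero C0 f21))
  have M11' : M1 ≠ 1 := fun h => M11 (by rw [h, sub_self])
  have M21' : M2 ≠ 1 := fun h => M21 (by rw [h, sub_self])
  have M31' : M3 ≠ 1 := fun h => M31 (by rw [h, sub_self])
  have M41' : M4 ≠ 1 := fun h => M41 (by rw [h, sub_self])
  -- the five term relation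
  have r4 : sy M4 = -sy M1 + sy M2 - sy M3 - sy (algebraMap k F ((e2 - e1) / (e3 - e1))) := by
    have h12 : M1 ≠ M2 := by
      intro h
      rw [hM1, hM2, div_eq_div_iff f21 f31] at h
      have := mul_left_cancel₀ A0 h
      apply f32
      linear_combination this
    have h5 := five M10 M11' M20 M21' h12
    have s1 : M2 / M1 = algebraMap k F ((e2 - e1) / (e3 - e1)) := by
      rw [hM1, hM2, map_div₀, map_sub, map_sub]; field_simp
    have s2 : (1 - M1⁻¹) / (1 - M2⁻¹) = (1 - M3⁻¹)⁻¹ := by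
      have a1 : 1 - M1⁻¹ = -((1 - M1) / M1) := by field_simp; ring
      have a2 : 1 - M2⁻¹ = -((1 - M2) / M2) := by field_simp; ring
      have a3 : 1 - M3⁻¹ = -((1 - M3) / M3) := by field_simp; ring
      rw [a1, a2, a3, i1, i2, i3, hM1, hM2, hM3]
      field_simp
    have s3 : (1 - M1) / (1 - M2) = M4 := by
      rw [i1, i2, hM4]
      field_simp
    rw [s1, s2, s3, syinv, sycompl, syinv, neg_neg] at h5
    have h6 : sy M4 - (-sy M1 + sy M2 - sy M3 - sy (algebraMap k F ((e2 - e1) / (e3 - e1)))) =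
        0 := by
      rw [← h5]; abel
    exact sub_eq_zero.mp h6
  -- all the symbols
  set S : Submodule ℚ (B2 F) := Submodule.span ℚ {sy M1, sy M2, sy M3} ⊔ SC k F with hS
  have S1 : sy M1 ∈ S := Submodule.mem_sup_left (Submodule.subset_span (by simp))
  have S2 : sy M2 ∈ S := Submodule.mem_sup_left (Submodule.subset_span (by simp))
  have S3' : sy M3 ∈ S := Submodule.mem_sup_left (Submodule.subset_span (by simp))
  have SCS : ∀ c : k, sy (algebraMap k F c) ∈ S := fun c =>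
    Submodule.mem_sup_right (Submodule.subset_span ⟨c, rfl⟩)
  have S4 : sy M4 ∈ S := by
    rw [r4]
    exact Submodule.sub_mem _ (Submodule.sub_mem _ (Submodule.add_mem _ (Submodule.neg_mem _ S1)
      S2) S3') (SCS _)
  have hMo : ∀ g : F, Mo H X g → sy g ∈ S := by
    rintro g ⟨a, b, x, hab, hxa, hxb, hd⟩
    rcases hcase a with rfl | rfl | rfl | rfl <;> rcases hcase b with rfl | rfl | rfl | rfl <;>
      rcases hcase x with rfl | rfl | rfl | rfl <;>
      first
      | exact absurd rfl hab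
      | exact absurd rfl hxa
      | exact absurd rfl hxb
      | (refine d1.perm h2 hg hT1 h21 h20 S1 ?_ hd; simp; done)
      | (refine d2.perm h2 hg hT1 h31 h30 S2 ?_ hd; simp; done)
      | (refine d3.perm h2 hg h20 h32 h30 S3' ?_ hd; simp; done)
      | (refine d4.perm h2 hg h32.symm h21.symm h31.symm S4 ?_ hd; simp; done)
  have hall : ∀ f : F, IsUn H X Y f → IsUn H X Y (1 - f) → sy f ∈ S := by
    intro f g1 g2
    rcases four_points hH h2 hg g1 g2 with ⟨c, rfl⟩ | h | ⟨u, h3, h4, h5⟩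
    · exact SCS c
    · exact hMo f h
    · have hu : u ≠ 0 := (h3.lineS hg).supp.1.1
      have hu1 : 1 - u ≠ 0 := (h3.lineS hg).supp.2.1
      have hu2 : 1 + u ≠ 0 := by have := (h4.lineS hg).supp.2.1; rwa [sub_neg_eq_add] at this
      have hu3 : u ^ 2 ≠ 1 := by
        intro h
        have : (1 - u) * (1 + u) = 0 := by linear_combination -h
        exact mul_ne_zero hu1 hu2 this
      have h6 : sy (u ^ 2) ∈ S := by
        rw [sy_sq hu hu1 hu2]
        exact Submodule.add_mem _ (Submodule.smul_mem _ _ (hMo u h3))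
          (Submodule.smul_mem _ _ (hMo _ h4))
      rcases sy_S3 hu3 h5 with h7 | h7 <;> rw [h7]
      · exact h6
      · exact Submodule.neg_mem _ h6
  have hform : ∀ s ∈ S, ∀ u : FT F, ∃ (w1 w2 w3 : FT F) (κ : HK F), κ ∈ KC k F ∧
      hk s u = hk (sy M1) w1 + hk (sy M2) w2 + hk (sy M3) w3 + κ := by
    intro s hs u
    rw [hS, Submodule.mem_sup] at hs
    obtain ⟨s1, hs1, s2, hs2, rfl⟩ := hs
    rw [Submodule.mem_span_insert] at hs1
    obtain ⟨q1, s1', hs1', rfl⟩ := hs1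
    rw [Submodule.mem_span_insert] at hs1'
    obtain ⟨q2, s1'', hs1'', rfl⟩ := hs1'
    rw [Submodule.mem_span_singleton] at hs1''
    obtain ⟨q3, rfl⟩ := hs1''
    refine ⟨q1 • u, q2 • u, q3 • u, hk s2 u, hk_SC hs2 u, ?_⟩
    simp only [hk_add_left, hk_smul_left, hk_smul_right]
    abel
  have hel : ∀ z ∈ Submodule.span ℚ {z : HK F | ∃ (f : F) (u : FT F), IsUn H X Y f ∧
      IsUn H X Y (1 - f) ∧ z = hk (sy f) u}, ∃ (w1 w2 w3 : FT F) (κ : HK F), κ ∈ KC k F ∧
      z = hk (sy M1) w1 + hk (sy M2) w2 + hk (sy M3) w3 + κ := by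
    intro z hz
    induction hz using Submodule.span_induction with
    | mem z hz =>
      obtain ⟨f, v, g1, g2, rfl⟩ := hz
      exact hform _ (hall f g1 g2) v
    | zero => exact ⟨0, 0, 0, 0, Submodule.zero_mem _, by simp only [hk_zero_right, add_zero]⟩
    | add x y _ _ hx hy =>
      obtain ⟨w1, w2, w3, κ, h1, h2⟩ := hx
      obtain ⟨w1', w2', w3', κ', h1', h2'⟩ := hy
      exact ⟨w1 + w1', w2 + w2', w3 + w3', κ + κ', Submodule.add_mem _ h1 h1', by
        rw [h2, h2', hk_add_right, hk_add_right, hk_add_right]; abel⟩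
    | smul q x _ hx =>
      obtain ⟨w1, w2, w3, κ, h1, h2⟩ := hx
      exact ⟨q • w1, q • w2, q • w3, q • κ, Submodule.smul_mem _ _ h1, by
        rw [h2, hk_smul_right, hk_smul_right, hk_smul_right, smul_add, smul_add, smul_add]⟩
  obtain ⟨w1, w2, w3, κ, hκ, ez⟩ := hel z hz
  -- the logarithms
  have c21 : algebraMap k F (e2 - e1) ≠ 0 := (_root_.map_ne_zero _).mpr k21
  have c31 : algebraMap k F (e3 - e1) ≠ 0 := (_root_.map_ne_zero _).mpr k31
  have c32 : algebraMap k F (e3 - e2) ≠ 0 := (_root_.map_ne_zero _).mpr k32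
  obtain ⟨a, ha⟩ : ∃ a, a = lg (X - algebraMap k F e1) := ⟨_, rfl⟩
  obtain ⟨b, hb⟩ : ∃ b, b = lg (X - algebraMap k F e2) := ⟨_, rfl⟩
  obtain ⟨c, hcc⟩ : ∃ c, c = lg (X - algebraMap k F e3) := ⟨_, rfl⟩
  obtain ⟨α, hα⟩ : ∃ α, α = lg (algebraMap k F (e2 - e1)) := ⟨_, rfl⟩
  obtain ⟨β, hβ⟩ : ∃ β, β = lg (algebraMap k F (e3 - e2)) := ⟨_, rfl⟩
  obtain ⟨γ, hγ⟩ : ∃ γ, γ = lg (algebraMap k F (e3 - e1)) := ⟨_, rfl⟩
  have vα : α ∈ V0 k F := by rw [hα]; exact lg_mem_V0 _
  have vβ : β ∈ V0 k F := by rw [hβ]; exact lg_mem_V0 _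
  have vγ : γ ∈ V0 k F := by rw [hγ]; exact lg_mem_V0 _
  rw [map_sub] at hα hβ hγ
  have L1 : lg M1 = a - α := by rw [hM1, lgdiv A0 f21, ha, hα]
  have L1' : lg (1 - M1) = b - α := by rw [i1, lgneg, lgdiv B0 f21, hb, hα]
  have L2 : lg M2 = a - γ := by rw [hM2, lgdiv A0 f31, ha, hγ]
  have L2' : lg (1 - M2) = c - γ := by rw [i2, lgneg, lgdiv C0 f31, hcc, hγ]
  have L3 : lg M3 = b - β := by rw [hM3, lgdiv B0 f32, hb, hβ]
  have L3' : lg (1 - M3) = c - β := by rw [i3, lgneg, lgdiv C0 f32, hcc, hβ]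
  have L4 : lg M4 = b + γ - (c + α) := by
    rw [hM4, lgdiv (mul_ne_zero B0 f31) (mul_ne_zero C0 f21), lgmul B0 f31, lgmul C0 f21, hb, hγ,
      hcc, hα]
  have L4' : lg (1 - M4) = a + β - (c + α) := by
    rw [i4, lgneg, lgdiv (mul_ne_zero A0 f32) (mul_ne_zero C0 f21), lgmul A0 f32, lgmul C0 f21, ha,
      hβ, hcc, hα]
  -- the dual functionals
  obtain ⟨φ, hφ, hd⟩ := exists_dual (V0 k F) (![a, b, c] : Fin 3 → FT F) (by
    intro q hq
    have hP : ∀ i, ∃ κ w, PU H lc2 hg ((![X - algebraMap k F e1, X - algebraMap k F e2,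
        X - algebraMap k F e3] : Fin 3 → F) i)
        ((![fun x => (if x = T1 then 2 else 0) - (if x = 0 then 2 else 0),
          fun x => (if x = T2 then 2 else 0) - (if x = 0 then 2 else 0),
          fun x => (if x = T3 then 2 else 0) - (if x = 0 then 2 else 0)] : Fin 3 → H → ℤ) i)
        κ w := by
      intro i
      fin_cases i
      · have := PU_ell h2 hg T1
        rw [l1] at this
        exact this
      · have := PU_ell h2 hg T2
        rw [l2] at this
        exact this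
      · have := PU_ell h2 hg T3
        rw [l3] at this
        exact this
    have hq' : ∑ i, q i • lg ((![X - algebraMap k F e1, X - algebraMap k F e2,
        X - algebraMap k F e3] : Fin 3 → F) i) ∈ V0 k F := by
      rw [Fin.sum_univ_three] at hq ⊢
      rw [ha, hb, hcc] at hq
      exact hq
    have h3 := indep_gen _ _ hP q hq'
    have q1 := h3 T1
    have q2 := h3 T2
    have q3 := h3 T3
    rw [Fin.sum_univ_three] at q1 q2 q3
    simp only [Matrix.cons_val_zero, Matrix.cons_val_one, Matrix.cons_val_two, Matrix.head_cons,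
      Matrix.tail_cons, Matrix.cons_val, if_true, if_neg hT1, if_neg h21, if_neg h20,
      if_neg h31, if_neg h32, if_neg h30, if_neg h21.symm, if_neg h31.symm, if_neg h32.symm]
      at q1 q2 q3
    push_cast at q1 q2 q3
    funext i
    fin_cases i
    · show q 0 = 0
      linarith
    · show q 1 = 0
      linarith
    · show q 2 = 0
      linarith)
  have pa : φ 0 a = 1 := by simpa using hd 0 0
  have pb : φ 0 b = 0 := by simpa using hd 0 1
  have pc : φ 0 c = 0 := by simpa using hd 0 2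
  have qa : φ 1 a = 0 := by simpa using hd 1 0
  have qb : φ 1 b = 1 := by simpa using hd 1 1
  have qc : φ 1 c = 0 := by simpa using hd 1 2
  have ra : φ 2 a = 0 := by simpa using hd 2 0
  have rb : φ 2 b = 0 := by simpa using hd 2 1
  have rc : φ 2 c = 1 := by simpa using hd 2 2
  obtain ⟨s, t, s1, t1', s2, t2', s3, t3', x1, x2, x3⟩ := lin3 (p := φ 0) (q := φ 1) (r := φ 2)
    (w1 := w1) (w2 := w2) (w3 := w3) pa pb pc qa qb qc ra rb rc (hφ 0 α vα) (hφ 0 β vβ)
    (hφ 0 γ vγ) (hφ 1 α vα) (hφ 1 β vβ) (hφ 1 γ vγ) (hφ 2 α vα) (hφ 2 β vβ) (hφ 2 γ vγ) (by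
      intro χ ψ hχ hψ
      have hχ' : ∀ w ∈ V0 k F, χ w = 0 := by
        rcases hχ with rfl | rfl | rfl
        · exact hφ 0
        · exact hφ 1
        · exact hφ 2
      have hψ' : ∀ w ∈ V0 k F, ψ w = 0 := by
        rcases hψ with rfl | rfl | rfl
        · exact hφ 0
        · exact hφ 1
        · exact hφ 2
      have h5 := congrArg (ct χ ψ) ((closed_dE z).mp hc)
      rw [ez] at h5
      simp only [map_add, map_zero, ct_KC hχ' hψ' hκ, add_zero, dE_sy, ct_mul3] at h5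
      simp only [L1, L1', L2, L2', L3, L3'] at h5
      simp only [← map_add] at h5
      have h7 := (ExteriorAlgebra.ι_eq_zero_iff _).mp h5
      exact h7)
  -- the trivial elements
  have z1 : hk (sy M1) (a - α) = 0 := by rw [← L1]; exact hk_self M10 M11'
  have z1' : hk (sy M1) (b - α) = 0 := by rw [← L1']; exact hk_compl M10 M11'
  have z2 : hk (sy M2) (a - γ) = 0 := by rw [← L2]; exact hk_self M20 M21'
  have z2' : hk (sy M2) (c - γ) = 0 := by rw [← L2']; exact hk_compl M20 M21'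
  have z3 : hk (sy M3) (b - β) = 0 := by rw [← L3]; exact hk_self M30 M31'
  have z3' : hk (sy M3) (c - β) = 0 := by rw [← L3']; exact hk_compl M30 M31'
  have z4 : hk (sy M4) (b + γ - (c + α)) = 0 := by rw [← L4]; exact hk_self M40 M41'
  have z4' : hk (sy M4) (a + β - (c + α)) = 0 := by rw [← L4']; exact hk_compl M40 M41'
  obtain ⟨μ, hμ⟩ : ∃ μ, μ = algebraMap k F ((e2 - e1) / (e3 - e1)) := ⟨_, rfl⟩
  have y1' := Submodule.subset_span (R := ℚ) (s := {z | ∃ (c : k) (u : FT F),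
    z = hk (sy (algebraMap k F c)) u}) ⟨(e2 - e1) / (e3 - e1), b + γ - (c + α), rfl⟩
  have y2' := Submodule.subset_span (R := ℚ) (s := {z | ∃ (c : k) (u : FT F),
    z = hk (sy (algebraMap k F c)) u}) ⟨(e2 - e1) / (e3 - e1), a + β - (c + α), rfl⟩
  change _ ∈ KC k F at y1' y2'
  rw [← hμ] at y1' y2'
  rw [← hμ] at r4
  -- the linear maps
  let Lm : B2 F → (FT F →ₗ[ℚ] HK F) := fun x =>
    { toFun := fun u => hk x u
      map_add' := fun u v => hk_add_right x u v
      map_smul' := fun q u => hk_smul_right q x u }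
  have h4 : ∀ v, Lm (sy M4) v = -Lm (sy M1) v + Lm (sy M2) v - Lm (sy M3) v - Lm (sy μ) v := by
    intro v
    show hk (sy M4) v = -hk (sy M1) v + hk (sy M2) v - hk (sy M3) v - hk (sy μ) v
    rw [r4, sub_eq_add_neg, sub_eq_add_neg, hk_add_left, hk_add_left, hk_add_left, hk_neg_left,
      hk_neg_left, hk_neg_left]
    abel
  have h5 := fin_alg (Lm (sy M1)) (Lm (sy M2)) (Lm (sy M3)) (Lm (sy M4)) (Lm (sy μ)) h4 z1 z1' z2
    z2' z3 z3' z4 z4' x1 x2 x3
  have h6 : hk (sy M1) w1 + hk (sy M2) w2 + hk (sy M3) w3 =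
      s • hk (sy μ) (b + γ - (c + α)) - t • hk (sy μ) (a + β - (c + α)) := h5
  rw [ez, h6]
  exact Submodule.add_mem _ (Submodule.sub_mem _ (Submodule.smul_mem _ _ y1')
    (Submodule.smul_mem _ _ y2')) hκ

end

end Pool.Agent.SG
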